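import Mathlib

set_option autoImplicit false

namespace Pool.Agent.Lib.MP_ee6896_co.Gen

open Finset

lemma sum_grow_aux {α : Type} [DecidableEq α] (ε : ℝ) (f : Finset α → ℝ) (A : Finset α)
    (hf : ∀ T, f T = f (T ∩ A)) (D : Finset α) (hD : Disjoint D A) :
    ∑ T ∈ (D ∪ A).powerset, ε ^ T.card * f T
      = (1 + ε) ^ D.card * ∑ T ∈ A.powerset, ε ^ T.card * f T := by
  induction D using Finset.induction_on with
  | empty => simp
  | insert y D hy ih =>
    rw [Finset.disjoint_insert_left] at hD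
    have hy' : y ∉ D ∪ A := by
      rw [Finset.mem_union]; rintro (h | h)
      · exact hy h
      · exact hD.1 h
    rw [Finset.insert_union, Finset.sum_powerset_insert hy', Finset.card_insert_of_notMem hy,
      pow_succ, mul_comm _ (1 + ε), mul_assoc, ← ih hD.2, add_mul, one_mul, Finset.mul_sum]
    congr 1
    refine Finset.sum_congr rfl fun T hT => ?_
    have hTs : T ⊆ D ∪ A := Finset.mem_powerset.mp hT
    have hyT : y ∉ T := fun h => hy' (hTs h)
    rw [Finset.card_insert_of_notMem hyT, hf (insert y T), Finset.insert_inter_of_notMem hD.1,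
      ← hf T]
    ring

lemma sum_grow {α : Type} [DecidableEq α] {ε : ℝ} (hε : 0 ≤ ε) (f : Finset α → ℝ)
    (A B : Finset α) (hAB : A ⊆ B) (hf : ∀ T, f T = f (T ∩ A))
    (hA : ∑ T ∈ A.powerset, ε ^ T.card * f T ≤ (1 + ε) ^ A.card) :
    ∑ T ∈ B.powerset, ε ^ T.card * f T ≤ (1 + ε) ^ B.card := by
  have h1 := sum_grow_aux ε f A hf (B \ A) Finset.sdiff_disjoint
  rw [Finset.sdiff_union_of_subset hAB] at h1
  rw [h1, ← Finset.card_sdiff_add_card_eq_card hAB, pow_add]
  exact mul_le_mul_of_nonneg_left hA (by positivity)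

/-- Painter's bookkeeping: a weight on labelled vertex sets for every root and colour, and a
stake of every vertex on every root and colour. -/
structure St (V : Type) where
  w : ℕ → Bool → Finset (ℕ × V) → ℝ
  nu : ℕ → ℕ → Bool → ℝ

def init (V : Type) : St V := ⟨fun _ _ _ => 1, fun _ _ _ => 1⟩

variable {V : Type} [Fintype V] [DecidableEq V]

def gr (V : Type) [Fintype V] (bl : ℕ → Finset ℕ) (z : ℕ) : Finset (ℕ × V) := bl z ×ˢ univ

def EU (u : ℕ) (T : Finset (ℕ × V)) : Prop := ∃ x, (u, x) ∈ T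

def EUV (G : SimpleGraph V) (u v : ℕ) (T : Finset (ℕ × V)) : Prop :=
  ∃ x y, (u, x) ∈ T ∧ (v, y) ∈ T ∧ G.Adj x y

def cm (bl : ℕ → Finset ℕ) (u v z : ℕ) : Prop := z ∈ bl u ∧ u ∈ bl z ∧ v ∈ bl z

variable (G : SimpleGraph V) (ε : ℝ) (bl : ℕ → Finset ℕ)

noncomputable def mass (s : St V) (z : ℕ) (c : Bool) : ℝ :=
  ∑ T ∈ (gr V bl z).powerset, ε ^ T.card * s.w z c T

open Classical in
noncomputable def mU (s : St V) (u z : ℕ) (c : Bool) : ℝ :=
  ∑ T ∈ (gr V bl z).powerset, if EU u T then ε ^ T.card * s.w z c T else 0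

open Classical in
noncomputable def mUV (s : St V) (u v z : ℕ) (c : Bool) : ℝ :=
  ∑ T ∈ (gr V bl z).powerset, if EUV G u v T then ε ^ T.card * s.w z c T else 0

noncomputable def pr (s : St V) (u v z : ℕ) (c : Bool) : ℝ :=
  mUV G ε bl s u v z c / mU ε bl s u z c

open Classical in
noncomputable def wf (s : St V) (u v : ℕ) (c : Bool) (z : ℕ) (c' : Bool)
    (T : Finset (ℕ × V)) : ℝ :=
  if cm bl u v z ∧ EU u T then
    (if c' = c then (if EUV G u v T then 3 / 2 else 1) / (1 + pr G ε bl s u v z c' / 2)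
      else (if EUV G u v T then 0 else 1 + pr G ε bl s u v z c'))
  else 1

open Classical in
noncomputable def nf (s : St V) (u v : ℕ) (c : Bool) (x z : ℕ) (c' : Bool) : ℝ :=
  if x = u ∧ cm bl u v z then
    (if c' = c then 1 + pr G ε bl s u v z c' / 2 else 1 / (1 + pr G ε bl s u v z c'))
  else 1

noncomputable def step (s : St V) (u v : ℕ) (c : Bool) : St V where
  w := fun z c' T => s.w z c' T * wf G ε bl s u v c z c' T
  nu := fun x z c' => s.nu x z c' * nf G ε bl s u v c x z c'

open Classical in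
noncomputable def threat (s : St V) (u v : ℕ) (c : Bool) : ℝ :=
  ∑ z ∈ bl u, if cm bl u v z then s.nu u z c * pr G ε bl s u v z c else 0

open Classical in
noncomputable def pick (s : St V) (u v : ℕ) : Bool :=
  if threat G ε bl s u v true ≤ threat G ε bl s u v false then true else false

omit [DecidableEq V] in
lemma pick_le (s : St V) (u v : ℕ) :
    threat G ε bl s u v (pick G ε bl s u v) ≤ threat G ε bl s u v (!pick G ε bl s u v) := by
  unfold pick
  split_ifs with h
  · simpa using h
  · simpa using (not_le.mp h).le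

structure Good (s : St V) : Prop where
  w0 : ∀ z c T, 0 ≤ s.w z c T
  wloc : ∀ z c T, s.w z c T = s.w z c (T ∩ gr V bl z)
  massle : ∀ z c, mass ε bl s z c ≤ (1 + ε) ^ (gr V bl z).card
  nu0 : ∀ x z c, 0 ≤ s.nu x z c
  nuloc : ∀ x z c, z ∉ bl x → s.nu x z c = 1
  nusum : ∀ x, ∑ z ∈ bl x, (s.nu x z true + s.nu x z false) ≤ 2 * (bl x).card

lemma good_init : Good ε bl (init V) := by
  refine ⟨?_, ?_, ?_, ?_, ?_, ?_⟩
  · simp [init]
  · simp [init]
  · intro z c
    have := sum_grow_aux ε (fun _ : Finset (ℕ × V) => (1 : ℝ)) ∅ (fun _ => rfl) (gr V bl z)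
      (by simp)
    simp only [Finset.union_empty, Finset.powerset_empty, Finset.sum_singleton,
      Finset.card_empty, pow_zero, mul_one] at this
    simp only [mass, init, mul_one]
    exact this.le
  · simp [init]
  · simp [init]
  · intro x
    simp only [init, Finset.sum_const, nsmul_eq_mul]
    linarith

variable {G ε bl}

lemma good_mono (hε : 0 ≤ ε) {s : St V} (hs : Good ε bl s) {bl' : ℕ → Finset ℕ}
    (h : ∀ z, bl z ⊆ bl' z) : Good ε bl' s := by
  have hg : ∀ z, gr V bl z ⊆ gr V bl' z := fun z =>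
    Finset.product_subset_product_left (h z)
  refine ⟨hs.w0, ?_, ?_, hs.nu0, ?_, ?_⟩
  · intro z c T
    rw [hs.wloc z c (T ∩ gr V bl' z), Finset.inter_assoc, Finset.inter_eq_right.mpr (hg z),
      ← hs.wloc z c T]
  · intro z c
    exact sum_grow hε _ _ _ (hg z) (hs.wloc z c) (hs.massle z c)
  · intro x z c hz
    exact hs.nuloc x z c fun h' => hz (h x h')
  · intro x
    rw [← Finset.sum_sdiff (h x), ← Finset.card_sdiff_add_card_eq_card (h x)]
    have h1 : ∑ z ∈ bl' x \ bl x, (s.nu x z true + s.nu x z false) = 2 * (bl' x \ bl x).card := by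
      rw [Finset.sum_congr rfl (g := fun _ => (2 : ℝ))]
      · simp [mul_comm]
      · intro z hz
        have := (Finset.mem_sdiff.mp hz).2
        rw [hs.nuloc x z true this, hs.nuloc x z false this]
        norm_num
    have h2 := hs.nusum x
    rw [h1]
    push_cast
    linarith

omit [Fintype V] [DecidableEq V] in
lemma EUV.eu {u v : ℕ} {T : Finset (ℕ × V)} (h : EUV G u v T) : EU u T := by
  obtain ⟨x, _, h1, _, _⟩ := h
  exact ⟨x, h1⟩

lemma mUV_nonneg (hε : 0 ≤ ε) {s : St V} (hs : Good ε bl s) (u v z : ℕ) (c : Bool) :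
    0 ≤ mUV G ε bl s u v z c := by
  unfold mUV
  refine Finset.sum_nonneg fun T _ => ?_
  split_ifs
  · exact mul_nonneg (pow_nonneg hε _) (hs.w0 _ _ _)
  · exact le_rfl

lemma mUV_le (hε : 0 ≤ ε) {s : St V} (hs : Good ε bl s) (u v z : ℕ) (c : Bool) :
    mUV G ε bl s u v z c ≤ mU ε bl s u z c := by
  unfold mUV mU
  refine Finset.sum_le_sum fun T _ => ?_
  have := mul_nonneg (pow_nonneg hε T.card) (hs.w0 z c T)
  by_cases h2 : EUV G u v T
  · simp [h2, h2.eu]
  · by_cases h1 : EU u T <;> simp [h1, h2, this]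

lemma pr_nonneg (hε : 0 ≤ ε) {s : St V} (hs : Good ε bl s) (u v z : ℕ) (c : Bool) :
    0 ≤ pr G ε bl s u v z c :=
  div_nonneg (mUV_nonneg hε hs u v z c)
    ((mUV_nonneg (G := G) hε hs u v z c).trans (mUV_le hε hs u v z c))

lemma pr_le (hε : 0 ≤ ε) {s : St V} (hs : Good ε bl s) (u v z : ℕ) (c : Bool) :
    pr G ε bl s u v z c ≤ 1 :=
  div_le_one_of_le₀ (mUV_le hε hs u v z c)
    ((mUV_nonneg (G := G) hε hs u v z c).trans (mUV_le hε hs u v z c))

lemma pr_mul (hε : 0 ≤ ε) {s : St V} (hs : Good ε bl s) (u v z : ℕ) (c : Bool) :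
    pr G ε bl s u v z c * mU ε bl s u z c = mUV G ε bl s u v z c := by
  unfold pr
  by_cases h : mU ε bl s u z c = 0
  · have h1 := mUV_le (G := G) hε hs u v z c
    have h2 := mUV_nonneg (G := G) hε hs u v z c
    rw [h] at h1 ⊢
    simp; linarith
  · field_simp

lemma wf_nonneg (hε : 0 ≤ ε) {s : St V} (hs : Good ε bl s) (u v : ℕ) (c : Bool) (z : ℕ)
    (c' : Bool) (T : Finset (ℕ × V)) : 0 ≤ wf G ε bl s u v c z c' T := by
  have := pr_nonneg (G := G) hε hs u v z c'
  unfold wf
  split_ifs <;> positivity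

lemma nf_nonneg (hε : 0 ≤ ε) {s : St V} (hs : Good ε bl s) (u v : ℕ) (c : Bool) (x z : ℕ)
    (c' : Bool) : 0 ≤ nf G ε bl s u v c x z c' := by
  have := pr_nonneg (G := G) hε hs u v z c'
  unfold nf
  split_ifs <;> positivity

lemma mass_cm (hε : 0 ≤ ε) {s : St V} (hs : Good ε bl s) (u v : ℕ) (c : Bool) (z : ℕ)
    (c' : Bool) :
    ∑ T ∈ (gr V bl z).powerset, ε ^ T.card * (s.w z c' T * wf G ε bl s u v c z c' T)
      ≤ mass ε bl s z c' := by
  classical
  by_cases hc : cm bl u v z
  · have p0 := pr_nonneg (G := G) hε hs u v z c'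
    have p1 := pr_le (G := G) hε hs u v z c'
    have pm := pr_mul (G := G) hε hs u v z c'
    have a0 := mUV_nonneg (G := G) hε hs u v z c'
    have a1 := mUV_le (G := G) hε hs u v z c'
    set p := pr G ε bl s u v z c' with hp
    have gen : ∀ α β : ℝ, (∀ T : Finset (ℕ × V), wf G ε bl s u v c z c' T
        = if EU u T then (if EUV G u v T then β else α) else 1) →
        ∑ T ∈ (gr V bl z).powerset, ε ^ T.card * (s.w z c' T * wf G ε bl s u v c z c' T)
          = mass ε bl s z c' + (α - 1) * mU ε bl s u z c' + (β - α) * mUV G ε bl s u v z c' := by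
      intro α β h
      unfold mass mU mUV
      rw [Finset.mul_sum, Finset.mul_sum, ← Finset.sum_add_distrib, ← Finset.sum_add_distrib]
      refine Finset.sum_congr rfl fun T _ => ?_
      rw [h T]
      by_cases h2 : EUV G u v T
      · simp only [h2, h2.eu, if_true]; ring
      · by_cases h1 : EU u T
        · simp only [h1, h2, if_true, if_false]; ring
        · simp only [h1, h2, if_false]; ring
    by_cases hcol : c' = c
    · rw [gen (1 / (1 + p / 2)) ((3 / 2) / (1 + p / 2))]
      · rw [← pm]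
        have : (1 / (1 + p / 2) - 1) * mU ε bl s u z c'
            + (3 / 2 / (1 + p / 2) - 1 / (1 + p / 2)) * (p * mU ε bl s u z c') = 0 := by
          field_simp; ring
        linarith
      · intro T
        unfold wf
        rw [← hp]
        by_cases h1 : EU u T <;> by_cases h2 : EUV G u v T <;> simp [h1, h2, hc, hcol]
    · rw [gen (1 + p) 0]
      · rw [← pm]
        have m0 : 0 ≤ mU ε bl s u z c' := a0.trans a1
        nlinarith [mul_nonneg (mul_nonneg p0 p0) m0]
      · intro T
        unfold wf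
        rw [← hp]
        by_cases h1 : EU u T <;> by_cases h2 : EUV G u v T <;> simp [h1, h2, hc, hcol]
  · apply le_of_eq
    unfold mass
    refine Finset.sum_congr rfl fun T _ => ?_
    simp [wf, hc]

lemma nu_sum (hε : 0 ≤ ε) {s : St V} (hs : Good ε bl s) (u v : ℕ) (c : Bool)
    (hc : threat G ε bl s u v c ≤ threat G ε bl s u v (!c)) (x : ℕ) :
    ∑ z ∈ bl x, (s.nu x z c * nf G ε bl s u v c x z c + s.nu x z (!c) * nf G ε bl s u v c x z (!c))
      ≤ ∑ z ∈ bl x, (s.nu x z c + s.nu x z (!c)) := by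
  classical
  by_cases hx : x = u
  · subst hx
    have h1 : ∀ z ∈ bl x,
        s.nu x z c * nf G ε bl s x v c x z c + s.nu x z (!c) * nf G ε bl s x v c x z (!c)
        ≤ (s.nu x z c + s.nu x z (!c))
          + 1 / 2 * (if cm bl x v z then s.nu x z c * pr G ε bl s x v z c else 0)
          - 1 / 2 * (if cm bl x v z then s.nu x z (!c) * pr G ε bl s x v z (!c) else 0) := by
      intro z _
      have p0 := pr_nonneg (G := G) hε hs x v z (!c)
      have p1 := pr_le (G := G) hε hs x v z (!c)
      have n0 := hs.nu0 x z (!c)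
      unfold nf
      by_cases hcm : cm bl x v z
      · have h4 : ¬ (!c) = c := by cases c <;> simp
        simp only [hcm, h4, true_and, if_true, if_false]
        have h5 : 1 / (1 + pr G ε bl s x v z (!c)) ≤ 1 - pr G ε bl s x v z (!c) / 2 := by
          rw [div_le_iff₀ (by linarith)]; nlinarith
        nlinarith [mul_le_mul_of_nonneg_left h5 n0]
      · simp [hcm]
    refine (Finset.sum_le_sum h1).trans ?_
    rw [Finset.sum_sub_distrib, Finset.sum_add_distrib, ← Finset.mul_sum, ← Finset.mul_sum]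
    unfold threat at hc
    linarith
  · apply le_of_eq
    refine Finset.sum_congr rfl fun z _ => ?_
    simp [nf, hx]

theorem good_step (hε : 0 ≤ ε) {s : St V} (hs : Good ε bl s) (u v : ℕ) (c : Bool)
    (hc : threat G ε bl s u v c ≤ threat G ε bl s u v (!c)) :
    Good ε bl (step G ε bl s u v c) := by
  refine ⟨?_, ?_, ?_, ?_, ?_, ?_⟩
  · intro z c' T
    exact mul_nonneg (hs.w0 z c' T) (wf_nonneg hε hs u v c z c' T)
  · intro z c' T
    show s.w z c' T * wf G ε bl s u v c z c' T
      = s.w z c' (T ∩ gr V bl z) * wf G ε bl s u v c z c' (T ∩ gr V bl z)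
    rw [← hs.wloc z c' T]
    congr 1
    unfold wf
    by_cases h : cm bl u v z
    · have h1 : EU u (T ∩ gr V bl z) ↔ EU u T := by
        unfold EU gr
        simp [h.2.1]
      have h2 : EUV G u v (T ∩ gr V bl z) ↔ EUV G u v T := by
        unfold EUV gr
        simp [h.2.1, h.2.2]
      rw [propext h1, propext h2]
    · simp [h]
  · intro z c'
    exact (mass_cm hε hs u v c z c').trans (hs.massle z c')
  · intro x z c'
    exact mul_nonneg (hs.nu0 x z c') (nf_nonneg hε hs u v c x z c')
  · intro x z c' h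
    show s.nu x z c' * nf G ε bl s u v c x z c' = 1
    rw [hs.nuloc x z c' h, one_mul]
    unfold nf
    rw [if_neg]
    rintro ⟨rfl, h2⟩
    exact h h2.1
  · intro x
    have h0 := nu_sum hε hs u v c hc x
    have h1 := hs.nusum x
    show ∑ z ∈ bl x, (s.nu x z true * nf G ε bl s u v c x z true
      + s.nu x z false * nf G ε bl s u v c x z false) ≤ _
    cases c
    · simp only [Bool.not_false] at h0
      rw [Finset.sum_add_distrib, Finset.sum_add_distrib] at h0
      rw [Finset.sum_add_distrib] at h1 ⊢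
      linarith
    · simp only [Bool.not_true] at h0
      exact h0.trans h1

/-- Total wealth attached to a labelled set. -/
noncomputable def W (s : St V) (z : ℕ) (c : Bool) (T : Finset (ℕ × V)) : ℝ :=
  s.w z c T * ∏ y ∈ T.image Prod.fst, s.nu y z c

open Classical in
lemma W_step (hε : 0 ≤ ε) {s : St V} (hs : Good ε bl s) (u v : ℕ) (c : Bool) (z : ℕ) (c' : Bool)
    (T : Finset (ℕ × V)) (hcol : EUV G u v T → c' = c) :
    W (step G ε bl s u v c) z c' T
      = W s z c' T * if cm bl u v z ∧ EUV G u v T then 3 / 2 else 1 := by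
  have hW : W (step G ε bl s u v c) z c' T = W s z c' T
      * (wf G ε bl s u v c z c' T * ∏ y ∈ T.image Prod.fst, nf G ε bl s u v c y z c') := by
    simp only [W, step]
    rw [Finset.prod_mul_distrib]; ring
  rw [hW]
  congr 1
  have p0 := pr_nonneg (G := G) hε hs u v z c'
  by_cases hcz : cm bl u v z
  · by_cases hu : EU u T
    · have hu' : u ∈ T.image Prod.fst := by
        obtain ⟨x, hx⟩ := hu
        exact Finset.mem_image.mpr ⟨_, hx, rfl⟩
      have hprod : ∏ y ∈ T.image Prod.fst, nf G ε bl s u v c y z c'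
          = if c' = c then 1 + pr G ε bl s u v z c' / 2 else 1 / (1 + pr G ε bl s u v z c') := by
        rw [Finset.prod_eq_single_of_mem u hu']
        · simp [nf, hcz]
        · intro y _ hy; simp [nf, hy]
      rw [hprod]
      by_cases hv : EUV G u v T
      · have c3 := hcol hv
        unfold wf
        rw [if_pos ⟨hcz, hu⟩, if_pos c3, if_pos c3, if_pos hv, if_pos ⟨hcz, hv⟩]
        field_simp
      · unfold wf
        have h3 : ¬ (cm bl u v z ∧ EUV G u v T) := fun h => hv h.2
        rw [if_pos ⟨hcz, hu⟩, if_neg hv, if_neg hv, if_neg h3]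
        split_ifs <;> field_simp
    · have hv : ¬ EUV G u v T := fun h => hu h.eu
      rw [Finset.prod_eq_one]
      · simp [wf, hu, hv]
      · intro y hy
        have : y ≠ u := by
          rintro rfl
          obtain ⟨a, ha, rfl⟩ := Finset.mem_image.mp hy
          exact hu ⟨a.2, ha⟩
        simp [nf, this]
  · rw [Finset.prod_eq_one]
    · simp [wf, hcz]
    · intro y _; simp [nf, hcz]

theorem W_le {K M : ℕ} (hK : 1 ≤ K) (hM : 1 ≤ M) {s : St V} (hs : Good (1 / (M : ℝ)) bl s)
    (hb : ∀ x, (bl x).card ≤ K) (hKM : K * Fintype.card V ≤ M) (z : ℕ) (c : Bool)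
    (T : Finset (ℕ × V)) : W s z c T ≤ 3 * (2 * (K : ℝ) * M) ^ T.card := by
  have K1 : (1 : ℝ) ≤ K := by exact_mod_cast hK
  have M1 : (1 : ℝ) ≤ M := by exact_mod_cast hM
  have M0 : (0 : ℝ) < M := by linarith
  have hg : (gr V bl z).card ≤ M := by
    unfold gr
    rw [Finset.card_product, Finset.card_univ]
    exact (Nat.mul_le_mul_right _ (hb z)).trans hKM
  set T' := T ∩ gr V bl z with hT'
  have h2 : (1 / (M : ℝ)) ^ T'.card * s.w z c T' ≤ 3 := by
    have a1 : (1 / (M : ℝ)) ^ T'.card * s.w z c T' ≤ mass (1 / (M : ℝ)) bl s z c := by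
      unfold mass
      exact Finset.single_le_sum (f := fun T => (1 / (M : ℝ)) ^ T.card * s.w z c T)
        (fun T _ => mul_nonneg (by positivity) (hs.w0 z c T))
        (Finset.mem_powerset.mpr Finset.inter_subset_right)
    have a2 : (1 + 1 / (M : ℝ)) ^ (gr V bl z).card ≤ (1 + 1 / (M : ℝ)) ^ M :=
      pow_le_pow_right₀ (by have : (0 : ℝ) ≤ 1 / M := by positivity
                            linarith) hg
    have a3 : (1 + 1 / (M : ℝ)) ^ M ≤ Real.exp (1 / (M : ℝ)) ^ M :=
      pow_le_pow_left₀ (by positivity) (by linarith [Real.add_one_le_exp (1 / (M : ℝ))]) M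
    have a4 : Real.exp (1 / (M : ℝ)) ^ M = Real.exp 1 := by
      rw [← Real.exp_nat_mul]; congr 1; field_simp
    have a5 := Real.exp_one_lt_d9
    have a6 := hs.massle z c
    linarith
  have h3 : s.w z c T ≤ 3 * (M : ℝ) ^ T.card := by
    rw [one_div, inv_pow, ← div_eq_inv_mul, div_le_iff₀ (by positivity)] at h2
    rw [hs.wloc z c T]
    refine h2.trans (mul_le_mul_of_nonneg_left ?_ (by norm_num))
    exact pow_le_pow_right₀ M1 (Finset.card_le_card Finset.inter_subset_left)
  have h4 : ∏ y ∈ T.image Prod.fst, s.nu y z c ≤ (2 * (K : ℝ)) ^ T.card := by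
    refine le_trans ?_ (pow_le_pow_right₀ (by linarith) (Finset.card_image_le (f := Prod.fst)))
    rw [← Finset.prod_const]
    refine Finset.prod_le_prod (fun y _ => hs.nu0 y z c) fun y _ => ?_
    by_cases b1 : z ∈ bl y
    · have b2 : s.nu y z true + s.nu y z false ≤ ∑ x ∈ bl y, (s.nu y x true + s.nu y x false) :=
        Finset.single_le_sum (f := fun x => s.nu y x true + s.nu y x false)
          (fun x _ => add_nonneg (hs.nu0 y x _) (hs.nu0 y x _)) b1
      have b3 : ((bl y).card : ℝ) ≤ K := by exact_mod_cast hb y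
      have b4 := hs.nusum y
      have b5 := hs.nu0 y z true
      have b6 := hs.nu0 y z false
      cases c <;> linarith
    · rw [hs.nuloc y z c b1]; linarith
  calc W s z c T ≤ (3 * (M : ℝ) ^ T.card) * (2 * (K : ℝ)) ^ T.card :=
        mul_le_mul h3 h4 (Finset.prod_nonneg fun y _ => hs.nu0 y z c) (by positivity)
    _ = 3 * (2 * (K : ℝ) * M) ^ T.card := by rw [mul_pow (2 * (K : ℝ))]; ring

end Pool.Agent.Lib.MP_ee6896_co.Gen
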