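import Mathlib

set_option autoImplicit false

namespace Pool.Agent.Lib.MP_ee6896_co.Gen

open Finset

lemma exists_early {α : Type} [DecidableEq α] (A : Finset α) (f : α → ℕ) (L : ℕ) :
    ∃ F ⊆ A, F.card ≤ L ∧ (F = A ∨ F.card = L) ∧ ∀ c ∈ F, ∀ c' ∈ A, c' ∉ F → f c ≤ f c' := by
  induction L with
  | zero => exact ⟨∅, empty_subset _, by simp, Or.inr (by simp), by simp⟩
  | succ L ih =>
    obtain ⟨F, h1, h2, h3, h4⟩ := ih
    by_cases hFA : F = A
    · exact ⟨F, h1, by omega, Or.inl hFA, h4⟩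
    · have hL : F.card = L := h3.resolve_left hFA
      have hne : (A \ F).Nonempty := by
        rw [Finset.sdiff_nonempty]
        exact fun h => hFA (Subset.antisymm h1 h)
      obtain ⟨c, hc, hmin⟩ := Finset.exists_min_image (A \ F) f hne
      rw [mem_sdiff] at hc
      refine ⟨insert c F, insert_subset hc.1 h1, ?_, Or.inr ?_, ?_⟩
      · rw [card_insert_of_notMem hc.2]; omega
      · rw [card_insert_of_notMem hc.2]; omega
      · intro d hd c' hc' hn
        have hn' : c' ∉ F := fun h => hn (mem_insert_of_mem h)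
        rcases mem_insert.mp hd with rfl | hd
        · exact hmin c' (mem_sdiff.mpr ⟨hc', hn'⟩)
        · exact h4 d hd c' hc' hn'

lemma rank_sum {α : Type} [DecidableEq α] (f : α → ℕ) (N : ℕ) (A : Finset α) :
    Set.InjOn f A → A.card ≤ N →
      ∑ c ∈ A, 2 ^ (N - (A.filter fun c' => f c' < f c).card) + 2 ^ (N + 1 - A.card)
        ≤ 2 ^ (N + 1) := by
  induction A using Finset.induction_on_max_value f with
  | empty => intro _ _; simp
  | insert a A ha hmax ih =>
    intro hinj hN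
    rw [card_insert_of_notMem ha] at hN
    have h1 := ih (hinj.mono (by simp)) (by omega)
    have h2 : ∀ c ∈ A, ((insert a A).filter fun c' => f c' < f c) = A.filter fun c' => f c' < f c :=
      fun c hc => by rw [filter_insert, if_neg (not_lt.mpr (hmax c hc))]
    have h3 : ((insert a A).filter fun c' => f c' < f a) = A := by
      rw [filter_insert, if_neg (lt_irrefl _), filter_eq_self]
      intro c hc
      refine lt_of_le_of_ne (hmax c hc) fun h => ha ?_
      rw [← hinj (by simp [hc]) (by simp) h]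
      exact hc
    rw [sum_insert ha, h3, card_insert_of_notMem ha, sum_congr rfl fun c hc => by rw [h2 c hc]]
    have h4 : 2 ^ (N + 1 - A.card) = 2 * 2 ^ (N - A.card) := by
      rw [← pow_succ']; congr 1; omega
    have h5 : N + 1 - (A.card + 1) = N - A.card := by omega
    rw [h5]
    omega

lemma exists_pack {α β : Type} [DecidableEq α] (τ : α → ℕ) (N : α → Finset β) (P : Finset α) :
    (∀ v ∈ P, (N v).Nonempty) → ∃ Q : Finset α, Q ⊆ P ∧
      (∀ a ∈ Q, ∀ b ∈ Q, a ≠ b → Disjoint (N a) (N b)) ∧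
      ∀ v ∈ P, ∃ z ∈ Q, τ z ≤ τ v ∧ ∃ x ∈ N v, x ∈ N z := by
  induction P using Finset.induction_on_max_value τ with
  | empty => intro _; exact ⟨∅, Subset.rfl, by simp, by simp⟩
  | insert a P _ hmax ih =>
    intro hne
    obtain ⟨Q, h1, h2, h3⟩ := ih fun v hv => hne v (mem_insert_of_mem hv)
    by_cases hc : ∃ z ∈ Q, ∃ x ∈ N a, x ∈ N z
    · refine ⟨Q, h1.trans (subset_insert _ _), h2, ?_⟩
      intro v hv
      rcases mem_insert.mp hv with rfl | hv
      · obtain ⟨z, z1, z2⟩ := hc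
        exact ⟨z, z1, hmax z (h1 z1), z2⟩
      · exact h3 v hv
    · have hd : ∀ z ∈ Q, Disjoint (N a) (N z) := fun z hz =>
        disjoint_left.mpr fun x x1 x2 => hc ⟨z, hz, x, x1, x2⟩
      refine ⟨insert a Q, insert_subset_insert _ h1, ?_, ?_⟩
      · intro x hx y hy hxy
        rcases mem_insert.mp hx with e1 | hx' <;> rcases mem_insert.mp hy with e2 | hy'
        · exact absurd (e1.trans e2.symm) hxy
        · rw [e1]; exact hd y hy'
        · rw [e2]; exact (hd x hx').symm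
        · exact h2 x hx' y hy' hxy
      · intro v hv
        rcases mem_insert.mp hv with rfl | hv
        · obtain ⟨x, hx⟩ := hne v (mem_insert_self _ _)
          exact ⟨v, mem_insert_self _ _, le_rfl, x, hx, hx⟩
        · obtain ⟨z, z1, z2⟩ := h3 v hv
          exact ⟨z, mem_insert_of_mem z1, z2⟩

variable {V : Type} [Fintype V] [DecidableEq V]

/-- the members of `A` met no later than the first member of `R` -/
def upto (A : Finset V) (f : V → ℕ) (R : Finset V) : Finset V :=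
  A.filter fun c => ∀ c' ∈ A, f c' < f c → c' ∉ R

lemma exists_half (C : Finset V) (A : V → Finset V) (hA : ∀ v, A v ⊆ C) (f : V → V → ℕ)
    (hf : ∀ v, Set.InjOn (f v) (A v)) :
    ∃ R : Finset V, 2 * R.card ≤ C.card ∧
      ∑ v, (upto (A v) (f v) R).card ≤ 4 * Fintype.card V := by
  let cost : Finset V → ℕ := fun R => ∑ v, (upto (A v) (f v) R).card
  have h1 : ∑ R ∈ C.powerset, cost R ≤ Fintype.card V * 2 ^ (C.card + 1) := by
    rw [sum_comm, ← card_univ, ← smul_eq_mul]
    refine sum_le_card_nsmul _ _ _ fun v _ => ?_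
    have a1 : ∑ R ∈ C.powerset, (upto (A v) (f v) R).card
        = ∑ c ∈ A v, 2 ^ (C.card - ((A v).filter fun c' => f v c' < f v c).card) := by
      simp only [upto, card_filter]
      rw [sum_comm]
      refine sum_congr rfl fun c _ => ?_
      rw [← card_filter, ← card_filter,
        ← card_sdiff_of_subset ((filter_subset _ _).trans (hA v)), ← card_powerset]
      congr 1
      ext R
      simp only [mem_filter, mem_powerset, subset_sdiff, disjoint_right, and_imp]
    have a2 := rank_sum (f v) C.card (A v) (hf v) (card_le_card (hA v))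
    rw [a1]
    exact le_trans (Nat.le_add_right _ _) a2
  have h2 : ∑ R ∈ C.powerset, cost (C \ R) = ∑ R ∈ C.powerset, cost R := by
    refine sum_nbij' (fun R => C \ R) (fun R => C \ R) ?_ ?_ ?_ ?_ ?_
    · intro R _; exact mem_powerset.mpr sdiff_subset
    · intro R _; exact mem_powerset.mpr sdiff_subset
    · intro R hR; exact Finset.sdiff_sdiff_eq_self (mem_powerset.mp hR)
    · intro R hR; exact Finset.sdiff_sdiff_eq_self (mem_powerset.mp hR)
    · intro R _; rfl
  have h3 : ∑ R ∈ C.powerset, (cost R + cost (C \ R))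
      ≤ ∑ R ∈ C.powerset, 4 * Fintype.card V := by
    rw [sum_add_distrib, h2, sum_const, card_powerset, smul_eq_mul]
    rw [pow_succ] at h1
    nlinarith
  obtain ⟨R, hR, h4⟩ := exists_le_of_sum_le (powerset_nonempty C) h3
  by_cases h : 2 * R.card ≤ C.card
  · exact ⟨R, h, le_trans (Nat.le_add_right _ _) h4⟩
  · refine ⟨C \ R, ?_, le_trans (Nat.le_add_left _ _) h4⟩
    rw [card_sdiff_of_subset (mem_powerset.mp hR)]; omega

/-- ordered edges still active: both ends are clustered, and were so before the edge came -/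
def act (E : Finset (V × V)) (t : V → V → ℕ) (K : Finset V) (rt : V → ℕ) : Finset (V × V) :=
  E.filter fun p => p.1 ∈ K ∧ p.2 ∈ K ∧ rt p.1 ≤ t p.1 p.2 ∧ rt p.2 ≤ t p.1 p.2

/-- hypotheses of the clustering lemma -/
structure Clus (E : Finset (V × V)) (t : V → V → ℕ) (Near : ℕ → ℕ → V → V → Prop) (r ρ : ℕ) :
    Prop where
  symm : ∀ v u, (v, u) ∈ E → (u, v) ∈ E
  tsym : ∀ v u, t v u = t u v
  tinj : ∀ v u u', (v, u) ∈ E → (v, u') ∈ E → t v u = t v u' → u = u'
  base : ∀ τ v, Near 0 τ v v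
  mono : ∀ i j τ τ' v z, i ≤ j → τ ≤ τ' → Near i τ v z → Near j τ' v z
  step : ∀ i τ v u z, (v, u) ∈ E → t v u < τ → Near i τ u z → Near (i + 1) τ v z
  count : ∀ (z : V) (S : Finset V) (X : Finset (V × V)), (∀ p ∈ X, p ∈ E ∧ p.1 ∈ S ∧ p.2 ∈ S ∧
    Near r (t p.1 p.2) p.1 z ∧ Near r (t p.1 p.2) p.2 z) → X.card ≤ ρ * S.card

variable {E : Finset (V × V)} {t : V → V → ℕ} {Near : ℕ → ℕ → V → V → Prop} {r ρ : ℕ}

omit [Fintype V] in
lemma act_cover (ht : ∀ v u, t v u = t u v) (A : Finset (V × V)) (hA : A ⊆ E)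
    (hs : ∀ v u, (v, u) ∈ A → (u, v) ∈ A) (K : Finset V) (rt : V → ℕ) :
    A.card ≤ (act E t K rt).card
      + 2 * (A.filter fun p => ¬ (p.1 ∈ K ∧ rt p.1 ≤ t p.1 p.2)).card := by
  set Rem := A.filter fun p => ¬ (p.1 ∈ K ∧ rt p.1 ≤ t p.1 p.2) with hRem
  have h1 : A ⊆ act E t K rt ∪ (Rem ∪ Rem.image Prod.swap) := by
    rintro ⟨v, u⟩ hp
    rw [mem_union, mem_union]
    by_cases a1 : v ∈ K ∧ rt v ≤ t v u
    · by_cases a2 : u ∈ K ∧ rt u ≤ t u v
      · left
        rw [act, mem_filter]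
        rw [ht u v] at a2
        exact ⟨hA hp, a1.1, a2.1, a1.2, a2.2⟩
      · right; right
        exact mem_image.mpr ⟨(u, v), mem_filter.mpr ⟨hs _ _ hp, a2⟩, rfl⟩
    · right; left
      exact mem_filter.mpr ⟨hp, a1⟩
  have h9 := (card_le_card h1).trans (card_union_le _ _)
  have h10 := card_union_le Rem (Rem.image Prod.swap)
  have h11 : (Rem.image Prod.swap).card ≤ Rem.card := card_image_le
  omega

lemma card_pairs_le (Y : Finset (V × V)) (g : V → V) (F : V → Finset V)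
    (h1 : ∀ v u, (v, u) ∈ Y → g u ∈ F v)
    (h2 : ∀ v u u', (v, u) ∈ Y → (v, u') ∈ Y → g u = g u' → u = u') :
    Y.card ≤ ∑ v, (F v).card := by
  have a1 : Y.card ≤ (univ.biUnion fun v => (F v).image fun c => (v, c)).card := by
    refine card_le_card_of_injOn (fun p => (p.1, g p.2)) ?_ ?_
    · rintro ⟨v, u⟩ hp
      exact mem_coe.mpr (mem_biUnion.mpr ⟨v, mem_univ _,
        mem_image.mpr ⟨_, h1 v u (mem_coe.mp hp), rfl⟩⟩)
    · rintro ⟨v, u⟩ hp ⟨v', u'⟩ hq he
      simp only [Prod.mk.injEq] at he ⊢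
      obtain ⟨rfl, he⟩ := he
      exact ⟨rfl, h2 v u u' (mem_coe.mp hp) (mem_coe.mp hq) he⟩
  exact a1.trans (card_biUnion_le.trans (sum_le_sum fun v _ => card_image_le))

/-- first level: a packing of early neighbourhoods -/
lemma Clus.start (H : Clus E t Near r ρ) {D : ℕ} (hD : 1 ≤ D) :
    ∃ (C K : Finset V) (cen : V → V) (rt : V → ℕ), D * C.card ≤ Fintype.card V ∧
      (∀ v ∈ K, cen v ∈ C ∧ Near 2 (rt v) v (cen v)) ∧
      E.card ≤ (act E t K rt).card + 2 * (D * Fintype.card V) := by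
  let Nb : V → Finset V := fun v => univ.filter fun u => (v, u) ∈ E
  choose N N1 N2 N3 N4 using fun v => exists_early (Nb v) (t v) D
  have NE : ∀ v, ∀ u ∈ N v, (v, u) ∈ E := fun v u hu => (mem_filter.mp (N1 v hu)).2
  let K : Finset V := univ.filter fun v => (N v).card = D
  let rt : V → ℕ := fun v => (N v).sup (t v) + 1
  have hrt : ∀ v, ∀ u ∈ N v, t v u < rt v := fun v u hu =>
    Nat.lt_succ_of_le (le_sup (f := t v) hu)
  have hne : ∀ v ∈ K, (N v).Nonempty := fun v hv => by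
    rw [← card_pos, (mem_filter.mp hv).2]; exact hD
  obtain ⟨Q, Q1, Q2, Q3⟩ := exists_pack rt N K hne
  have hex : ∀ v, ∃ z, v ∈ K → z ∈ Q ∧ Near 2 (rt v) v z := by
    intro v
    by_cases h : v ∈ K
    · obtain ⟨z, z1, z2, x, x1, x2⟩ := Q3 v h
      refine ⟨z, fun _ => ⟨z1, H.step 1 _ v x z (NE v x x1) (hrt v x x1) ?_⟩⟩
      refine H.step 0 _ x z z (H.symm _ _ (NE z x x2)) ?_ (H.base _ z)
      rw [H.tsym x z]
      exact lt_of_lt_of_le (hrt z x x2) z2
    · exact ⟨v, fun h' => absurd h' h⟩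
  choose cen hc using hex
  refine ⟨Q, K, cen, rt, ?_, hc, ?_⟩
  · have a1 : (Q.biUnion N).card = ∑ z ∈ Q, (N z).card :=
      card_biUnion fun a ha b hb hab => Q2 a ha b hb hab
    rw [sum_congr rfl fun z hz => (mem_filter.mp (Q1 hz)).2, sum_const, smul_eq_mul] at a1
    rw [mul_comm, ← a1]
    exact card_le_univ _
  · refine (act_cover H.tsym E Subset.rfl H.symm K rt).trans ?_
    refine Nat.add_le_add_left (Nat.mul_le_mul_left _ ?_) _
    refine (card_pairs_le _ id N ?_ fun _ _ _ _ _ h => h).trans ?_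
    · intro v u hp
      obtain ⟨b1, b2⟩ := mem_filter.mp hp
      have b3 : u ∈ Nb v := mem_filter.mpr ⟨mem_univ _, b1⟩
      by_contra hcon
      by_cases b4 : v ∈ K
      · obtain ⟨x, x1, x2⟩ := exists_mem_eq_sup (N v) (hne v b4) (t v)
        have b5 := N4 v x x1 u b3 hcon
        have b6 : t v u ≤ (N v).sup (t v) := by
          by_contra b7
          exact b2 ⟨b4, by simp only [rt]; omega⟩
        rw [H.tinj v u x b1 (NE v x x1) (by omega)] at hcon
        exact hcon x1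
      · rcases N3 v with b5 | b5
        · rw [b5] at hcon; exact hcon b3
        · exact b4 (mem_filter.mpr ⟨mem_univ _, b5⟩)
    · rw [mul_comm, ← card_univ]
      exact sum_le_card_nsmul _ _ _ fun v _ => N2 v

/-- one halving of the set of centres -/
lemma Clus.level (H : Clus E t Near r ρ) {i : ℕ} (hi : i < r)
    (C K : Finset V) (cen : V → V) (rt : V → ℕ)
    (hK : ∀ v ∈ K, cen v ∈ C ∧ Near i (rt v) v (cen v)) :
    ∃ (C' K' : Finset V) (cen' : V → V) (rt' : V → ℕ), 2 * C'.card ≤ C.card ∧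
      (∀ v ∈ K', cen' v ∈ C' ∧ Near (i + 1) (rt' v) v (cen' v)) ∧
      (act E t K rt).card ≤ (act E t K' rt').card + 2 * ((4 + 5 * ρ) * Fintype.card V) := by
  classical
  set A := act E t K rt with hA
  have memA : ∀ v u, (v, u) ∈ A ↔ (v, u) ∈ E ∧ v ∈ K ∧ u ∈ K ∧ rt v ≤ t v u ∧ rt u ≤ t v u := by
    intro v u; rw [hA, act, mem_filter]
  have symA : ∀ v u, (v, u) ∈ A → (u, v) ∈ A := by
    intro v u h
    rw [memA] at h ⊢
    rw [H.tsym u v]
    exact ⟨H.symm _ _ h.1, h.2.2.1, h.2.1, h.2.2.2.2, h.2.2.2.1⟩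
  let Ad : V → Finset V := fun v => univ.filter fun c => ∃ u, (v, u) ∈ A ∧ cen u = c
  let fs : V → V → ℕ := fun v c => sInf {τ | ∃ u, (v, u) ∈ A ∧ cen u = c ∧ t v u = τ}
  have fs1 : ∀ v u, (v, u) ∈ A → fs v (cen u) ≤ t v u := fun v u h =>
    Nat.sInf_le ⟨u, h, rfl, rfl⟩
  have fs2 : ∀ v, ∀ c ∈ Ad v, ∃ u, (v, u) ∈ A ∧ cen u = c ∧ t v u = fs v c := by
    intro v c hc
    obtain ⟨u, h1, h2⟩ := (mem_filter.mp hc).2
    exact Nat.sInf_mem (s := {τ | ∃ u, (v, u) ∈ A ∧ cen u = c ∧ t v u = τ}) ⟨_, u, h1, h2, rfl⟩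
  have ad1 : ∀ v u, (v, u) ∈ A → cen u ∈ Ad v := fun v u h =>
    mem_filter.mpr ⟨mem_univ _, u, h, rfl⟩
  have near : ∀ v, ∀ c ∈ Ad v, Near (i + 1) (fs v c + 1) v c := by
    intro v c hc
    obtain ⟨u, h1, h2, h3⟩ := fs2 v c hc
    rw [memA] at h1
    rw [← h3]
    refine H.step i _ v u c h1.1 (by omega) ?_
    rw [← h2]
    exact H.mono i i _ _ _ _ le_rfl (by omega) (hK u h1.2.2.1).2
  have AC : ∀ v, Ad v ⊆ C := by
    intro v c hc
    obtain ⟨u, h1, h2⟩ := (mem_filter.mp hc).2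
    rw [← h2]
    exact (hK u ((memA v u).mp h1).2.2.1).1
  have finj : ∀ v, Set.InjOn (fs v) (Ad v) := by
    intro v c hc c' hc' he
    obtain ⟨u, h1, h2, h3⟩ := fs2 v c (mem_coe.mp hc)
    obtain ⟨u', g1, g2, g3⟩ := fs2 v c' (mem_coe.mp hc')
    rw [← h2, ← g2, H.tinj v u u' ((memA _ _).mp h1).1 ((memA _ _).mp g1).1 (by omega)]
  obtain ⟨R, R2, R3⟩ := exists_half C Ad AC fs finj
  let F : V → Finset V := fun v => upto (Ad v) (fs v) R
  have memF : ∀ v c, c ∈ F v ↔ c ∈ Ad v ∧ ∀ c' ∈ Ad v, fs v c' < fs v c → c' ∉ R :=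
    fun v c => mem_filter
  let K' : Finset V := univ.filter fun v => ∃ c ∈ F v, c ∈ R
  have hex : ∀ v, ∃ c, v ∈ K' → c ∈ F v ∧ c ∈ R := by
    intro v
    by_cases h : v ∈ K'
    · obtain ⟨c, h1, h2⟩ := (mem_filter.mp h).2
      exact ⟨c, fun _ => ⟨h1, h2⟩⟩
    · exact ⟨v, fun h' => absurd h' h⟩
  choose cen' hc' using hex
  let rt' : V → ℕ := fun v => fs v (cen' v) + 1
  refine ⟨R, K', cen', rt', R2,
    fun v hv => ⟨(hc' v hv).2, near v _ ((memF _ _).mp (hc' v hv).1).1⟩, ?_⟩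
  refine (act_cover H.tsym A (filter_subset _ _) symA K' rt').trans ?_
  refine Nat.add_le_add_left (Nat.mul_le_mul_left _ ?_) _
  set Rem := A.filter fun p => ¬ (p.1 ∈ K' ∧ rt' p.1 ≤ t p.1 p.2) with hRem
  have h2 : ∀ v u, (v, u) ∈ Rem → cen u ∈ F v := by
    intro v u hp
    obtain ⟨b1, b2⟩ := mem_filter.mp hp
    rw [memF]
    refine ⟨ad1 v u b1, fun c' c1 c2 c3 => ?_⟩
    by_cases b3 : v ∈ K'
    · have b4 : t v u ≤ fs v (cen' v) := by
        by_contra b5
        exact b2 ⟨b3, by simp only [rt']; omega⟩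
      have b6 := fs1 v u b1
      exact ((memF _ _).mp (hc' v b3).1).2 c' c1 (by omega) c3
    · obtain ⟨c, d1, d2⟩ := exists_min_image ((Ad v).filter fun c => c ∈ R) (fs v)
        ⟨c', mem_filter.mpr ⟨c1, c3⟩⟩
      rw [mem_filter] at d1
      refine b3 (mem_filter.mpr ⟨mem_univ _, c, (memF _ _).mpr ⟨d1.1, fun e e1 e2 e3 => ?_⟩, d1.2⟩)
      have := d2 e (mem_filter.mpr ⟨e1, e3⟩)
      omega
  let S : V → Finset V := fun c => univ.filter fun x => c ∈ insert (cen x) (F x)
  let X : V → Finset (V × V) := fun c =>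
    Rem.filter fun p => cen p.2 = c ∧ fs p.1 (cen p.2) < t p.1 p.2
  let Y : Finset (V × V) := Rem.filter fun p => t p.1 p.2 = fs p.1 (cen p.2)
  have h3 : Rem ⊆ Y ∪ univ.biUnion X := by
    rintro ⟨v, u⟩ hp
    rw [mem_union]
    rcases (fs1 v u (mem_filter.mp hp).1).eq_or_lt with h | h
    · exact Or.inl (mem_filter.mpr ⟨hp, h.symm⟩)
    · exact Or.inr (mem_biUnion.mpr ⟨cen u, mem_univ _, mem_filter.mpr ⟨hp, rfl, h⟩⟩)
  have h4 : Y.card ≤ 4 * Fintype.card V := by
    refine (card_pairs_le Y cen F (fun v u hp => h2 v u (mem_filter.mp hp).1) ?_).trans R3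
    intro v u u' hp hq he
    obtain ⟨b1, b2⟩ := mem_filter.mp hp
    obtain ⟨c1, c2⟩ := mem_filter.mp hq
    simp only at b2 c2
    refine H.tinj v u u' ((memA _ _).mp (mem_filter.mp b1).1).1
      ((memA _ _).mp (mem_filter.mp c1).1).1 ?_
    rw [b2, c2, he]
  have h5 : ∀ c, (X c).card ≤ ρ * (S c).card := by
    intro c
    refine H.count c (S c) (X c) ?_
    rintro ⟨v, u⟩ hp
    obtain ⟨b1, b2, b3⟩ := mem_filter.mp hp
    simp only at b2 b3
    have b4 := h2 v u b1
    have b5 := (memA v u).mp (mem_filter.mp b1).1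
    subst b2
    refine ⟨b5.1, mem_filter.mpr ⟨mem_univ _, mem_insert_of_mem b4⟩,
      mem_filter.mpr ⟨mem_univ _, mem_insert_self _ _⟩, ?_, ?_⟩
    · exact H.mono (i + 1) r _ _ _ _ hi b3 (near v _ ((memF _ _).mp b4).1)
    · exact H.mono i r _ _ _ _ hi.le b5.2.2.2.2 (hK u b5.2.2.1).2
  have h6 : ∑ c, (S c).card ≤ 5 * Fintype.card V := by
    have a1 : ∑ c, (S c).card = ∑ x, (insert (cen x) (F x)).card := by
      simp only [S, card_filter]
      rw [sum_comm]
      refine sum_congr rfl fun x _ => ?_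
      rw [← card_filter, filter_mem_eq_inter, univ_inter]
    have a2 : ∑ x, (insert (cen x) (F x)).card ≤ ∑ x, ((F x).card + 1) :=
      sum_le_sum fun x _ => card_insert_le _ _
    rw [sum_add_distrib, sum_const, card_univ, smul_eq_mul, mul_one] at a2
    have a3 : ∑ x, (F x).card ≤ 4 * Fintype.card V := R3
    omega
  have h7 : (univ.biUnion X).card ≤ ρ * (5 * Fintype.card V) := by
    refine card_biUnion_le.trans ((sum_le_sum fun c _ => h5 c).trans ?_)
    rw [← mul_sum]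
    exact Nat.mul_le_mul_left _ h6
  refine (card_le_card h3).trans ((card_union_le _ _).trans ?_)
  rw [add_mul, mul_comm 5 ρ, mul_assoc]
  exact Nat.add_le_add h4 h7

theorem Clus.bound {s : ℕ} (H : Clus E t Near (s + 2) ρ) {D : ℕ}
    (hn : Fintype.card V < D * 2 ^ s) :
    E.card ≤ 2 * (D * Fintype.card V) + s * (2 * ((4 + 5 * ρ) * Fintype.card V)) := by
  have hD : 1 ≤ D := by
    by_contra h
    have : D = 0 := by omega
    rw [this] at hn
    omega
  have key : ∀ i ≤ s, ∃ (C K : Finset V) (cen : V → V) (rt : V → ℕ),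
      D * (2 ^ i * C.card) ≤ Fintype.card V ∧
      (∀ v ∈ K, cen v ∈ C ∧ Near (i + 2) (rt v) v (cen v)) ∧
      E.card ≤ (act E t K rt).card + 2 * (D * Fintype.card V)
        + i * (2 * ((4 + 5 * ρ) * Fintype.card V)) := by
    intro i
    induction i with
    | zero =>
      intro _
      obtain ⟨C, K, cen, rt, h1, h2, h3⟩ := H.start hD
      exact ⟨C, K, cen, rt, by simpa using h1, h2, by simpa using h3⟩
    | succ i ih =>
      intro hi
      obtain ⟨C, K, cen, rt, h1, h2, h3⟩ := ih (by omega)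
      obtain ⟨C', K', cen', rt', g1, g2, g3⟩ :=
        H.level (by omega : i + 2 < s + 2) C K cen rt h2
      refine ⟨C', K', cen', rt', ?_, g2, ?_⟩
      · rw [pow_succ, mul_assoc]
        exact (Nat.mul_le_mul_left _ (Nat.mul_le_mul_left _ g1)).trans h1
      · rw [add_mul, one_mul]; omega
  obtain ⟨C, K, cen, rt, h1, h2, h3⟩ := key s le_rfl
  have hC : C = ∅ := by
    rw [← card_eq_zero]
    by_contra h
    have : D * (2 ^ s * 1) ≤ D * (2 ^ s * C.card) :=
      Nat.mul_le_mul_left _ (Nat.mul_le_mul_left _ (by omega))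
    rw [mul_one] at this
    omega
  have hA : act E t K rt = ∅ := by
    rw [act, filter_eq_empty_iff]
    intro p _ hp
    have := (h2 _ hp.1).1
    rw [hC] at this
    exact notMem_empty _ this
  rw [hA] at h3
  simpa using h3

end Pool.Agent.Lib.MP_ee6896_co.Gen
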