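import Mathlib
import Pool.Agent.Lib.MP_ee6896_co.G_Bank
import Pool.Agent.Lib.MP_ee6896_co.G_Clus

set_option autoImplicit false

namespace Pool.Agent.Lib.MP_ee6896_co.Gen

open Finset

/-- vertices within `j` steps -/
def ball (N : ℕ → Finset ℕ) : ℕ → ℕ → Finset ℕ
  | 0, z => {z}
  | j + 1, z => ball N j z ∪ (ball N j z).biUnion N

lemma ball_card {N : ℕ → Finset ℕ} {k : ℕ} (hN : ∀ x, (N x).card ≤ k) (j z : ℕ) :
    (ball N j z).card ≤ (k + 1) ^ j := by
  induction j with
  | zero => simp [ball]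
  | succ j ih =>
    have h1 := card_biUnion_le_card_mul (ball N j z) N k fun x _ => hN x
    have h2 := card_union_le (ball N j z) ((ball N j z).biUnion N)
    have h3 : (ball N j z).card * (k + 1) ≤ (k + 1) ^ j * (k + 1) := Nat.mul_le_mul_right _ ih
    rw [pow_succ, ball]
    rw [mul_add ((ball N j z).card), mul_one] at h3
    omega

lemma ball_mono {N N' : ℕ → Finset ℕ} (h : ∀ x, N x ⊆ N' x) (j z : ℕ) :
    ball N j z ⊆ ball N' j z := by
  induction j with
  | zero => simp [ball]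
  | succ j ih =>
    rw [ball, ball]
    refine union_subset_union ih ?_
    intro y hy
    obtain ⟨x, h1, h2⟩ := mem_biUnion.mp hy
    exact mem_biUnion.mpr ⟨x, ih h1, h x h2⟩

lemma ball_le (N : ℕ → Finset ℕ) {i j : ℕ} (h : i ≤ j) (z : ℕ) : ball N i z ⊆ ball N j z := by
  induction j, h using Nat.le_induction with
  | base => exact Subset.rfl
  | succ j _ ih => rw [ball]; exact ih.trans subset_union_left

lemma ball_step {N : ℕ → Finset ℕ} {i u v z : ℕ} (hu : u ∈ ball N i z) (hv : v ∈ N u) :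
    v ∈ ball N (i + 1) z := by
  rw [ball]
  exact mem_union_right _ (mem_biUnion.mpr ⟨u, hu, hv⟩)

lemma ball_adj {N : ℕ → Finset ℕ} {u v : ℕ} (hu : u ∈ N v) (i : ℕ) :
    ball N i u ⊆ ball N (i + 1) v := by
  induction i with
  | zero =>
    rw [ball, singleton_subset_iff]
    exact ball_step (by simp [ball]) hu
  | succ i ih =>
    show ball N i u ∪ (ball N i u).biUnion N ⊆ ball N (i + 1) v ∪ (ball N (i + 1) v).biUnion N
    exact union_subset_union ih (biUnion_subset_biUnion_of_subset_left N ih)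

abbrev Hist := List (Sym2 ℕ × Bool)

noncomputable def oth (x : ℕ) (e : Sym2 ℕ) : ℕ :=
  if (Quot.out e).1 = x then (Quot.out e).2 else (Quot.out e).1

lemma oth_mk (x y : ℕ) : oth x s(x, y) = y := by
  have h : s((Quot.out s(x, y)).1, (Quot.out s(x, y)).2) = s(x, y) := Quot.out_eq _
  rw [Sym2.eq_iff] at h
  unfold oth
  split_ifs <;> omega

noncomputable def nb (l : Hist) (x : ℕ) : Finset ℕ :=
  ((l.filter (fun a => x ∈ a.1)).map (fun a => oth x a.1)).toFinset

lemma nb_card (l : Hist) (x : ℕ) : (nb l x).card ≤ (l.filter (fun a => x ∈ a.1)).length := by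
  unfold nb
  exact (List.toFinset_card_le _).trans (by rw [List.length_map])

lemma mem_nb {l : Hist} {x y : ℕ} {c : Bool} (h : (s(x, y), c) ∈ l) : y ∈ nb l x := by
  unfold nb
  rw [List.mem_toFinset, List.mem_map]
  exact ⟨_, List.mem_filter.mpr ⟨h, by simp⟩, oth_mk x y⟩

lemma nb_mono {l l' : Hist} (h : ∀ a ∈ l, a ∈ l') (x : ℕ) : nb l x ⊆ nb l' x := by
  intro y hy
  unfold nb at hy ⊢
  rw [List.mem_toFinset, List.mem_map] at hy ⊢
  obtain ⟨a, h1, h2⟩ := hy
  rw [List.mem_filter] at h1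
  exact ⟨a, List.mem_filter.mpr ⟨h a h1.1, h1.2⟩, h2⟩

variable {V : Type} [Fintype V] [DecidableEq V] (G : SimpleGraph V) (ε : ℝ) (R : ℕ)

noncomputable def runR : Hist → St V
  | [] => init V
  | a :: l => step G ε (ball (nb l.reverse) R) (runR l) (Quot.out a.1).1 (Quot.out a.1).2 a.2

noncomputable def run (h : Hist) : St V := runR G ε R h.reverse

/-- Painter's strategy -/
noncomputable def painter (h : Hist) (e : Sym2 ℕ) : Bool :=
  pick G ε (ball (nb h) R) (run G ε R h) (Quot.out e).1 (Quot.out e).2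

omit [DecidableEq V] in
lemma run_snoc (h : Hist) (a : Sym2 ℕ × Bool) : run G ε R (h ++ [a])
    = step G ε (ball (nb h) R) (run G ε R h) (Quot.out a.1).1 (Quot.out a.1).2 a.2 := by
  unfold run
  rw [List.reverse_append, List.reverse_singleton, List.singleton_append, runR,
    List.reverse_reverse]

lemma hist_eq (g : ℕ → Sym2 ℕ × Bool) (h : ℕ → Hist) (h0 : h 0 = [])
    (hs : ∀ n, h (n + 1) = h n ++ [g n]) (n : ℕ) : h n = (List.range n).map g := by
  induction n with
  | zero => simp [h0]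
  | succ n ih => rw [hs, ih, List.range_succ, List.map_append]; rfl

open Classical in
theorem painter_bound (D s k ρ : ℕ) (hn : Fintype.card V < D * 2 ^ s) (hn1 : 1 ≤ Fintype.card V)
    (hρ : 6 * (((k + 1) ^ (s + 2) : ℕ) : ℝ) * (((k + 1) ^ (s + 2) * Fintype.card V : ℕ) : ℝ)
      ≤ (3 / 2) ^ ρ)
    (B : Hist → Sym2 ℕ) (h : ℕ → Hist) (h0 : h 0 = [])
    (hs : ∀ n, h (n + 1) = h n ++ [(B (h n),
      painter G (1 / (((k + 1) ^ (s + 2) * Fintype.card V : ℕ) : ℝ)) (s + 2) (h n) (B (h n)))])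
    (n : ℕ)
    (h1 : ((h n).map Prod.fst).Nodup)
    (h3 : ∀ v : ℕ, ((h n).filter (fun x => v ∈ x.1)).length ≤ k)
    (φ : V → ℕ) (hφ : Function.Injective φ) (c : Bool)
    (h4 : ∀ u w, G.Adj u w → (s(φ u, φ w), c) ∈ h n) :
    (univ.filter fun p : V × V => G.Adj p.1 p.2).card
      ≤ 2 * (D * Fintype.card V) + s * (2 * ((4 + 5 * (2 * ρ)) * Fintype.card V)) := by
  set r := s + 2 with hr
  set K := (k + 1) ^ r with hK
  set M := K * Fintype.card V with hM
  set ε : ℝ := 1 / (M : ℝ) with hε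
  have K1 : 1 ≤ K := Nat.one_le_pow _ _ (by omega)
  have M1 : 1 ≤ M := Nat.mul_pos K1 hn1
  have ε0 : 0 ≤ ε := by positivity
  set e : ℕ → Sym2 ℕ := fun t => B (h t) with he
  set col : ℕ → Bool := fun t => painter G ε r (h t) (B (h t)) with hcol
  set a : ℕ → ℕ := fun t => (Quot.out (e t)).1 with ha
  set b : ℕ → ℕ := fun t => (Quot.out (e t)).2 with hb
  set bl : ℕ → ℕ → Finset ℕ := fun t => ball (nb (h t)) r with hbl
  set st : ℕ → St V := fun t => run G ε r (h t) with hst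
  have hab : ∀ t, s(a t, b t) = e t := fun t => Quot.out_eq _
  have hh := hist_eq (fun t => (e t, col t)) h h0 hs
  have hmem : ∀ m x, x ∈ h m ↔ ∃ t < m, (e t, col t) = x := by
    intro m x
    rw [hh m, List.mem_map]
    simp only [List.mem_range]
  have hmono : ∀ t t', t ≤ t' → ∀ x, nb (h t) x ⊆ nb (h t') x := by
    intro t t' htt
    refine nb_mono fun x hx => ?_
    obtain ⟨r, r1, r2⟩ := (hmem t x).mp hx
    exact (hmem t' x).mpr ⟨r, by omega, r2⟩
  have hinj : ∀ t < n, ∀ t' < n, e t = e t' → t = t' := by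
    rw [hh n, List.map_map, List.nodup_map_iff_inj_on List.nodup_range] at h1
    intro t ht t' ht' htt
    exact h1 t (List.mem_range.mpr ht) t' (List.mem_range.mpr ht') htt
  have hstep : ∀ t, st (t + 1) = step G ε (bl t) (st t) (a t) (b t) (col t) := by
    intro t
    simp only [hst]
    rw [hs t, run_snoc]
  have hgood : ∀ t, Good ε (bl t) (st t) := by
    intro t
    induction t with
    | zero =>
      simp only [hst]
      rw [h0]
      exact good_init ε _
    | succ t ih =>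
      rw [hstep]
      exact good_mono ε0 (good_step ε0 ih _ _ _ (pick_le G ε _ _ _ _))
        (ball_mono (hmono t (t + 1) (by omega)) r)
  have hW : ∀ (z : ℕ) (T : Finset (ℕ × V)), (∀ t < n, EUV G (a t) (b t) T → c = col t) →
      ∀ m ≤ n, W (st m) z c T = (3 / 2) ^
        ((range m).filter fun t => cm (bl t) (a t) (b t) z ∧ EUV G (a t) (b t) T).card := by
    intro z T hT m
    induction m with
    | zero =>
      intro _
      simp only [hst]
      rw [h0]
      simp [W, run, runR, init]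
    | succ m ih =>
      intro hm
      rw [hstep, W_step ε0 (hgood m) _ _ _ _ _ _ (hT m (by omega)), ih (by omega),
        range_add_one, filter_insert]
      split_ifs with hc
      · rw [card_insert_of_notMem (by simp), pow_succ]
      · rw [mul_one]
  let tm : V → V → ℕ := fun v u => sInf {t | e t = s(φ v, φ u)}
  have htm : ∀ v u, G.Adj v u → tm v u < n ∧ e (tm v u) = s(φ v, φ u) := by
    intro v u hvu
    obtain ⟨t, t1, t2⟩ := (hmem n _).mp (h4 v u hvu)
    have t3 : t ∈ {t | e t = s(φ v, φ u)} := (Prod.mk.inj t2).1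
    exact ⟨lt_of_le_of_lt (Nat.sInf_le t3) t1, Nat.sInf_mem ⟨t, t3⟩⟩
  have memE : ∀ v u, (v, u) ∈ (univ.filter fun p : V × V => G.Adj p.1 p.2) ↔ G.Adj v u := by
    intro v u; simp
  refine Clus.bound (t := tm) (Near := fun i τ v z =>
    φ v ∈ ball (nb (h τ)) i (φ z) ∧ φ z ∈ ball (nb (h τ)) i (φ v)) ?_ hn
  refine ⟨?_, ?_, ?_, ?_, ?_, ?_, ?_⟩
  · intro v u hvu
    rw [memE] at hvu ⊢
    exact hvu.symm
  · intro v u
    simp only [tm]
    rw [Sym2.eq_swap]
  · intro v u u' b1 b2 b3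
    rw [memE] at b1 b2
    have := (htm v u b1).2
    rw [b3, (htm v u' b2).2] at this
    exact hφ (Sym2.congr_right.mp this).symm
  · intro τ v
    simp [ball]
  · intro i j τ τ' v z hij hτ hN
    exact ⟨ball_le _ hij _ (ball_mono (hmono τ τ' hτ) i _ hN.1),
      ball_le _ hij _ (ball_mono (hmono τ τ' hτ) i _ hN.2)⟩
  · intro i τ v u z hvu hτ hN
    rw [memE] at hvu
    have b1 : (s(φ v, φ u), col (tm v u)) ∈ h τ :=
      (hmem _ _).mpr ⟨tm v u, hτ, by rw [(htm v u hvu).2]⟩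
    have b2 : (s(φ u, φ v), col (tm v u)) ∈ h τ := by rwa [Sym2.eq_swap]
    exact ⟨ball_step hN.1 (mem_nb b2), ball_adj (mem_nb b1) i hN.2⟩
  · intro z S X hX
    rcases X.eq_empty_or_nonempty with hXe | ⟨p0, hp0⟩
    · rw [hXe]; simp
    have hS : 1 ≤ S.card := card_pos.mpr ⟨_, (hX p0 hp0).2.1⟩
    set T := S.image fun x => (φ x, x) with hT
    have hTc : T.card = S.card :=
      card_image_of_injective _ fun x y hxy => (Prod.mk.inj hxy).2
    have hcT : ∀ t < n, EUV G (a t) (b t) T → c = col t := by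
      rintro t ht ⟨x, y, b1, b2, b3⟩
      obtain ⟨x', _, b4⟩ := mem_image.mp b1
      obtain ⟨y', _, b5⟩ := mem_image.mp b2
      obtain ⟨b6, rfl⟩ := Prod.mk.inj b4
      obtain ⟨b7, rfl⟩ := Prod.mk.inj b5
      obtain ⟨t', t1, t2⟩ := (hmem n _).mp (h4 _ _ b3)
      obtain ⟨t3, t4⟩ := Prod.mk.inj t2
      rw [b6, b7, hab] at t3
      rw [← hinj t' t1 t ht t3, t4]
    set Tm := (range n).filter fun t => cm (bl t) (a t) (b t) (φ z) ∧ EUV G (a t) (b t) T with hTm
    have c1 : (3 / 2 : ℝ) ^ Tm.card ≤ 3 * (2 * (K : ℝ) * M) ^ T.card := by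
      rw [← hW (φ z) T hcT n le_rfl]
      exact W_le K1 M1 (hgood n) (ball_card (fun x => (nb_card _ x).trans (h3 x)) r) le_rfl _ _ _
    have c2 : Tm.card ≤ ρ * S.card := by
      rw [hTc] at c1
      have d1 : 3 * (2 * (K : ℝ) * M) ^ S.card ≤ (3 / 2 : ℝ) ^ (ρ * S.card) := by
        calc 3 * (2 * (K : ℝ) * M) ^ S.card ≤ 3 ^ S.card * (2 * (K : ℝ) * M) ^ S.card :=
              mul_le_mul_of_nonneg_right (le_self_pow₀ (by norm_num) (by omega)) (by positivity)
          _ = (6 * (K : ℝ) * M) ^ S.card := by rw [← mul_pow]; congr 1; ring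
          _ ≤ ((3 / 2 : ℝ) ^ ρ) ^ S.card := pow_le_pow_left₀ (by positivity) hρ _
          _ = _ := by rw [← pow_mul]
      exact (pow_le_pow_iff_right₀ (by norm_num)).mp (c1.trans d1)
    have hor : ∀ v u, G.Adj v u → (a (tm v u) = φ v ∧ b (tm v u) = φ u)
        ∨ (a (tm v u) = φ u ∧ b (tm v u) = φ v) := by
      intro v u hvu
      rw [← Sym2.eq_iff, hab]
      exact (htm v u hvu).2
    have c3 : X.card ≤ (Tm ×ˢ (univ : Finset Bool)).card := by
      refine card_le_card_of_injOn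
        (fun p => (tm p.1 p.2, decide (φ p.1 = a (tm p.1 p.2)))) ?_ ?_
      · rintro ⟨v, u⟩ hp
        obtain ⟨b1, b2, b3, b4, b5⟩ := hX _ (mem_coe.mp hp)
        rw [memE] at b1
        simp only at b2 b3 b4 b5
        refine mem_coe.mpr (mem_product.mpr ⟨mem_filter.mpr ⟨mem_range.mpr (htm v u b1).1, ?_⟩,
          mem_univ _⟩)
        have tv : (φ v, v) ∈ T := mem_image.mpr ⟨v, b2, rfl⟩
        have tu : (φ u, u) ∈ T := mem_image.mpr ⟨u, b3, rfl⟩
        rcases hor v u b1 with ⟨r1, r2⟩ | ⟨r1, r2⟩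
        · simp only
          rw [r1, r2]
          exact ⟨⟨b4.2, b4.1, b5.1⟩, v, u, tv, tu, b1⟩
        · simp only
          rw [r1, r2]
          exact ⟨⟨b5.2, b5.1, b4.1⟩, u, v, tu, tv, b1.symm⟩
      · rintro ⟨v, u⟩ hp ⟨v', u'⟩ hq hpq
        have b1 := (memE _ _).mp (hX _ (mem_coe.mp hp)).1
        have b2 := (memE _ _).mp (hX _ (mem_coe.mp hq)).1
        simp only [Prod.mk.injEq, decide_eq_decide] at hpq
        obtain ⟨b3, b4⟩ := hpq
        have r1 := hor v u b1
        have r2 := hor v' u' b2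
        rw [← b3] at r2 b4
        have r3 : φ v = φ v' ∧ φ u = φ u' := by omega
        rw [hφ r3.1, hφ r3.2]
    rw [card_product, card_univ, Fintype.card_bool] at c3
    rw [mul_assoc]
    omega

omit [DecidableEq V] in
open Classical in
lemma pairs_eq : (univ.filter fun p : V × V => G.Adj p.1 p.2).card = 2 * G.edgeSet.ncard := by
  have h1 : (univ.filter fun p : V × V => G.Adj p.1 p.2).card = ∑ v, G.degree v := by
    rw [card_filter, ← univ_product_univ, sum_product]
    refine sum_congr rfl fun v _ => ?_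
    rw [← card_filter, ← SimpleGraph.card_neighborFinset_eq_degree,
      SimpleGraph.neighborFinset_eq_filter]
  rw [h1, SimpleGraph.sum_degrees_eq_twice_card_edges, ← SimpleGraph.coe_edgeFinset,
    Set.ncard_coe_finset]

open Classical in
lemma pairs_le_deg (l : Hist) (k : ℕ)
    (h3 : ∀ v : ℕ, (l.filter (fun x => v ∈ x.1)).length ≤ k)
    (φ : V → ℕ) (hφ : Function.Injective φ) (c : Bool)
    (h4 : ∀ u w, G.Adj u w → (s(φ u, φ w), c) ∈ l) :
    (univ.filter fun p : V × V => G.Adj p.1 p.2).card ≤ Fintype.card V * k := by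
  refine (card_pairs_le _ id (fun v => univ.filter fun u => G.Adj v u) ?_
    fun _ _ _ _ _ h => h).trans ?_
  · intro v u hp
    simpa using hp
  · rw [← card_univ]
    refine sum_le_card_nsmul _ _ _ fun v _ => ?_
    refine le_trans ?_ ((nb_card l (φ v)).trans (h3 _))
    refine card_le_card_of_injOn φ ?_ hφ.injOn
    intro u hu
    exact mem_coe.mpr (mem_nb (h4 v u (mem_filter.mp (mem_coe.mp hu)).2))

lemma rho_ok {n k b s : ℕ} (hk : k < 2 ^ b) (hn : n ≤ 2 ^ (b + s)) :
    6 * (((k + 1) ^ (s + 2) : ℕ) : ℝ) * (((k + 1) ^ (s + 2) * n : ℕ) : ℝ)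
      ≤ (3 / 2) ^ (2 * (3 + b * (s + 2) + (b * (s + 2) + (b + s)))) := by
  have h1 : (k + 1) ^ (s + 2) ≤ 2 ^ (b * (s + 2)) := by
    rw [pow_mul]; exact Nat.pow_le_pow_left hk _
  have h2 : 6 * (k + 1) ^ (s + 2) * ((k + 1) ^ (s + 2) * n)
      ≤ 2 ^ (3 + b * (s + 2) + (b * (s + 2) + (b + s))) := by
    rw [pow_add 2 (3 + b * (s + 2)), pow_add 2 3, pow_add 2 (b * (s + 2))]
    exact Nat.mul_le_mul (Nat.mul_le_mul (by norm_num) h1) (Nat.mul_le_mul h1 hn)
  have h3 : 6 * (((k + 1) ^ (s + 2) : ℕ) : ℝ) * (((k + 1) ^ (s + 2) * n : ℕ) : ℝ)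
      ≤ 2 ^ (3 + b * (s + 2) + (b * (s + 2) + (b + s))) := by exact_mod_cast h2
  refine h3.trans ?_
  rw [pow_mul]
  exact pow_le_pow_left₀ (by norm_num) (by norm_num) _

/-- Lower bound for the online degree-Ramsey number in terms of the numbers of vertices and
edges. -/
theorem painter_wins (s b k : ℕ) (hs : 4 * Fintype.card V ^ 2 < 2 ^ s * G.edgeSet.ncard)
    (hb : 202 * s ^ 2 * b * Fintype.card V < G.edgeSet.ncard) (hk : k < 2 ^ b) :
    ∃ P : Hist → Sym2 ℕ → Bool, ∀ B : Hist → Sym2 ℕ, ∀ h : ℕ → Hist, h 0 = [] →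
      (∀ t, h (t + 1) = h t ++ [(B (h t), P (h t) (B (h t)))]) →
      ∀ t : ℕ, ((h t).map Prod.fst).Nodup →
        (∀ v : ℕ, ((h t).filter (fun x => v ∈ x.1)).length ≤ k) →
        ¬ ∃ φ : V → ℕ, Function.Injective φ ∧
          ∃ c : Bool, ∀ u w, G.Adj u w → (s(φ u, φ w), c) ∈ h t := by
  classical
  refine ⟨painter G (1 / (((k + 1) ^ (s + 2) * Fintype.card V : ℕ) : ℝ)) (s + 2), ?_⟩
  rintro B h h0 hst t h1 h3 ⟨φ, hφ, c, h4⟩
  have e1 := pairs_eq G
  have e2 := pairs_le_deg G (h t) k h3 φ hφ c h4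
  have e3 : (univ.filter fun p : V × V => G.Adj p.1 p.2).card ≤ Fintype.card V ^ 2 := by
    refine (card_le_univ _).trans ?_
    rw [Fintype.card_prod, sq]
  have e4 := fun D hD hn1 hρ => painter_bound G D s k
    (2 * (3 + b * (s + 2) + (b * (s + 2) + (b + s)))) hD hn1 hρ B h h0 hst t h1 h3 φ hφ c h4
  rw [e1] at e2 e3 e4
  set m := G.edgeSet.ncard with hm
  set n := Fintype.card V with hn
  have m0 : 0 < m := by omega
  have n0 : 0 < n := by
    by_contra h'
    have : n = 0 := by omega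
    rw [this] at e2
    omega
  have b0 : 1 ≤ b := by
    by_contra h'
    have : b = 0 := by omega
    rw [this] at hk
    have : k = 0 := by omega
    rw [this] at e2
    omega
  have s4 : 4 ≤ s := by
    by_contra h'
    have a1 : 2 ^ s ≤ 2 ^ 3 := Nat.pow_le_pow_right (by norm_num) (by omega)
    have a2 := Nat.mul_le_mul_right m a1
    omega
  have sb : s ≤ s * b := Nat.le_mul_of_pos_right _ b0
  have sb4 : 4 * b ≤ s * b := Nat.mul_le_mul_right _ s4
  have m2 : 2 * n ≤ m := by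
    have : 2 * n ≤ 202 * s ^ 2 * b * n := Nat.mul_le_mul_right _ (by nlinarith)
    omega
  set D := m / (2 * n) with hD
  have d1 : D * (2 * n) ≤ m := Nat.div_mul_le_self _ _
  have d2 : m < (D + 1) * (2 * n) := by
    rw [mul_comm]; exact Nat.lt_mul_div_succ _ (by omega)
  have d3 : 1 ≤ D := (Nat.le_div_iff_mul_le (by omega)).mpr (by omega)
  have d4 : n < D * 2 ^ s := by
    have a1 : m ≤ D * (4 * n) := by nlinarith
    have a2 : 2 ^ s * m ≤ 2 ^ s * (D * (4 * n)) := Nat.mul_le_mul_left _ a1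
    have a3 : n * (4 * n) < D * 2 ^ s * (4 * n) := by nlinarith
    exact lt_of_mul_lt_mul_right a3 (Nat.zero_le _)
  have d5 : n ≤ 2 ^ (b + s) := by
    have a1 : m ≤ 2 ^ b * n := by nlinarith
    have a2 : 2 ^ s * m ≤ 2 ^ s * (2 ^ b * n) := Nat.mul_le_mul_left _ a1
    have a3 : n * n ≤ 2 ^ (b + s) * n := by rw [pow_add]; nlinarith
    exact Nat.le_of_mul_le_mul_right a3 n0
  have e5 := e4 D d4 n0 (rho_ok hk d5)
  have a1 : 4 + 5 * (2 * (2 * (3 + b * (s + 2) + (b * (s + 2) + (b + s))))) ≤ 101 * (s * b) := by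
    nlinarith
  have a2 : s * (2 * ((4 + 5 * (2 * (2 * (3 + b * (s + 2) + (b * (s + 2) + (b + s)))))) * n))
      ≤ s * (2 * (101 * (s * b) * n)) :=
    Nat.mul_le_mul_left _ (Nat.mul_le_mul_left _ (Nat.mul_le_mul_right _ a1))
  have a3 : s * (2 * (101 * (s * b) * n)) = 202 * s ^ 2 * b * n := by ring
  have a4 : 2 * (D * n) = D * (2 * n) := by ring
  omega

end Pool.Agent.Lib.MP_ee6896_co.Gen
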