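import Mathlib

set_option autoImplicit false

namespace Pool.Agent.Lib.MP_ee6896_co

open Finset

/-- Painter's bookkeeping. -/
structure St where
  nb : ℕ → Finset ℕ
  col : ℕ → ℕ → Bool
  w : ℕ → Finset ℕ → ℝ
  nu : ℕ → ℕ → ℝ
  rc : ℕ → Finset (ℕ × ℕ)

def init : St := ⟨fun _ => ∅, fun _ _ => true, fun _ _ => 1, fun _ _ => 1, fun _ => ∅⟩

variable (ε : ℝ)

noncomputable def mass (s : St) (z : ℕ) : ℝ := ∑ T ∈ (s.nb z).powerset, ε ^ T.card * s.w z T

noncomputable def mU (s : St) (u z : ℕ) : ℝ :=
  ∑ T ∈ (s.nb z).powerset, if u ∈ T then ε ^ T.card * s.w z T else 0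

noncomputable def mUV (s : St) (u v z : ℕ) : ℝ :=
  ∑ T ∈ (s.nb z).powerset, if u ∈ T ∧ v ∈ T then ε ^ T.card * s.w z T else 0

noncomputable def pr (s : St) (u v z : ℕ) : ℝ := mUV ε s u v z / mU ε s u z

def cm (s : St) (u v z : ℕ) : Prop := z ∈ s.nb u ∧ z ∈ s.nb v

instance (s : St) (u v z : ℕ) : Decidable (cm s u v z) := by unfold cm; infer_instance

noncomputable def wf (s : St) (u v : ℕ) (c : Bool) (z : ℕ) (T : Finset ℕ) : ℝ :=
  if cm s u v z ∧ u ∈ T then
    (if s.col u z = c then (if v ∈ T then 3 / 2 else 1) / (1 + pr ε s u v z / 2)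
      else (if v ∈ T then 0 else 1 + pr ε s u v z))
  else 1

noncomputable def nf (s : St) (u v : ℕ) (c : Bool) (x z : ℕ) : ℝ :=
  if x = u ∧ cm s u v z then
    (if s.col u z = c then 1 + pr ε s u v z / 2 else 1 / (1 + pr ε s u v z))
  else 1

noncomputable def step (s : St) (u v : ℕ) (c : Bool) : St where
  nb := fun x => if x = u then insert v (s.nb x) else if x = v then insert u (s.nb x) else s.nb x
  col := fun x y => if (x = u ∧ y = v) ∨ (x = v ∧ y = u) then c else s.col x y
  w := fun z T => s.w z T * wf ε s u v c z T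
  nu := fun x z => s.nu x z * nf ε s u v c x z
  rc := fun z => if cm s u v z then insert (u, v) (insert (v, u) (s.rc z)) else s.rc z

noncomputable def threat (s : St) (u v : ℕ) (c : Bool) : ℝ :=
  ∑ z ∈ s.nb u, if z ∈ s.nb v ∧ s.col u z = c then s.nu u z * pr ε s u v z else 0

open Classical in
noncomputable def pick (s : St) (u v : ℕ) : Bool :=
  if threat ε s u v true ≤ threat ε s u v false then true else false

lemma pick_le (s : St) (u v : ℕ) :
    threat ε s u v (pick ε s u v) ≤ threat ε s u v (!pick ε s u v) := by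
  unfold pick
  split_ifs with h
  · simpa using h
  · simpa using (not_le.mp h).le

def Mono (s : St) (S : Finset ℕ) (c : Bool) : Prop :=
  ∀ x ∈ S, ∀ y ∈ S, y ∈ s.nb x → s.col x y = c

structure Good (s : St) : Prop where
  symm : ∀ x y, y ∈ s.nb x → x ∈ s.nb y
  irr : ∀ x, x ∉ s.nb x
  w0 : ∀ z T, 0 ≤ s.w z T
  wloc : ∀ z T, s.w z T = s.w z (T ∩ s.nb z)
  massle : ∀ z, mass ε s z ≤ (1 + ε) ^ (s.nb z).card
  nu0 : ∀ x z, 0 ≤ s.nu x z
  nuloc : ∀ x z, z ∉ s.nb x → s.nu x z = 1
  nusum : ∀ x, ∑ z ∈ s.nb x, s.nu x z ≤ (s.nb x).card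
  tri : ∀ x y z, y ∈ s.nb x → z ∈ s.nb y → x ∈ s.nb z →
    (y, z) ∈ s.rc x ∨ (z, x) ∈ s.rc y ∨ (x, y) ∈ s.rc z
  gain : ∀ z T c, z ∉ T → Mono s (insert z T) c →
    (6 / 5 : ℝ) ^ ((s.rc z).filter fun p => p.1 ∈ T ∧ p.2 ∈ T).card
      ≤ s.w z T * ∏ y ∈ T, s.nu y z

lemma good_init : Good ε init := by
  refine ⟨?_, ?_, ?_, ?_, ?_, ?_, ?_, ?_, ?_, ?_⟩ <;> simp [init, mass]

variable {ε}

lemma mUV_nonneg (hε : 0 ≤ ε) {s : St} (hs : Good ε s) (u v z : ℕ) : 0 ≤ mUV ε s u v z := by
  unfold mUV
  refine Finset.sum_nonneg fun T _ => ?_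
  split_ifs
  · exact mul_nonneg (pow_nonneg hε _) (hs.w0 _ _)
  · exact le_rfl

lemma mUV_le (hε : 0 ≤ ε) {s : St} (hs : Good ε s) (u v z : ℕ) : mUV ε s u v z ≤ mU ε s u z := by
  unfold mUV mU
  refine Finset.sum_le_sum fun T _ => ?_
  have := mul_nonneg (pow_nonneg hε T.card) (hs.w0 z T)
  by_cases h1 : u ∈ T <;> by_cases h2 : v ∈ T <;> simp [h1, h2, this]

lemma pr_nonneg (hε : 0 ≤ ε) {s : St} (hs : Good ε s) (u v z : ℕ) : 0 ≤ pr ε s u v z :=
  div_nonneg (mUV_nonneg hε hs u v z) ((mUV_nonneg hε hs u v z).trans (mUV_le hε hs u v z))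

lemma pr_le (hε : 0 ≤ ε) {s : St} (hs : Good ε s) (u v z : ℕ) : pr ε s u v z ≤ 1 :=
  div_le_one_of_le₀ (mUV_le hε hs u v z) ((mUV_nonneg hε hs u v z).trans (mUV_le hε hs u v z))

lemma pr_mul (hε : 0 ≤ ε) {s : St} (hs : Good ε s) (u v z : ℕ) :
    pr ε s u v z * mU ε s u z = mUV ε s u v z := by
  unfold pr
  by_cases h : mU ε s u z = 0
  · have h1 := mUV_le hε hs u v z
    have h2 := mUV_nonneg hε hs u v z
    rw [h] at h1 ⊢
    simp; linarith
  · field_simp

lemma wf_nonneg (hε : 0 ≤ ε) {s : St} (hs : Good ε s) (u v : ℕ) (c : Bool) (z : ℕ)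
    (T : Finset ℕ) : 0 ≤ wf ε s u v c z T := by
  have := pr_nonneg hε hs u v z
  unfold wf
  split_ifs <;> positivity

lemma nf_nonneg (hε : 0 ≤ ε) {s : St} (hs : Good ε s) (u v : ℕ) (c : Bool) (x z : ℕ) :
    0 ≤ nf ε s u v c x z := by
  have := pr_nonneg hε hs u v z
  unfold nf
  split_ifs <;> positivity

lemma mass_insert {s : St} (hs : Good ε s) (z y : ℕ) (hy : y ∉ s.nb z) :
    ∑ T ∈ (insert y (s.nb z)).powerset, ε ^ T.card * s.w z T = (1 + ε) * mass ε s z := by
  rw [Finset.sum_powerset_insert hy]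
  unfold mass
  rw [add_mul, one_mul, Finset.mul_sum]
  congr 1
  refine Finset.sum_congr rfl fun T hT => ?_
  have hTs : T ⊆ s.nb z := Finset.mem_powerset.mp hT
  have hyT : y ∉ T := fun h => hy (hTs h)
  rw [Finset.card_insert_of_notMem hyT, hs.wloc z (insert y T), Finset.insert_inter_of_notMem hy,
    ← hs.wloc z T]
  ring

lemma mass_cm (hε : 0 ≤ ε) {s : St} (hs : Good ε s) (u v : ℕ) (c : Bool) (z : ℕ) :
    ∑ T ∈ (s.nb z).powerset, ε ^ T.card * (s.w z T * wf ε s u v c z T) ≤ mass ε s z := by
  by_cases hc : cm s u v z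
  · have p0 := pr_nonneg hε hs u v z
    have p1 := pr_le hε hs u v z
    have pm := pr_mul hε hs u v z
    have a0 := mUV_nonneg hε hs u v z
    have a1 := mUV_le hε hs u v z
    set p := pr ε s u v z with hp
    have gen : ∀ α β : ℝ, (∀ T : Finset ℕ, wf ε s u v c z T
        = if u ∈ T then (if v ∈ T then β else α) else 1) →
        ∑ T ∈ (s.nb z).powerset, ε ^ T.card * (s.w z T * wf ε s u v c z T)
          = mass ε s z + (α - 1) * mU ε s u z + (β - α) * mUV ε s u v z := by
      intro α β h
      unfold mass mU mUV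
      rw [Finset.mul_sum, Finset.mul_sum, ← Finset.sum_add_distrib, ← Finset.sum_add_distrib]
      refine Finset.sum_congr rfl fun T _ => ?_
      rw [h T]
      by_cases h1 : u ∈ T <;> by_cases h2 : v ∈ T <;> simp [h1, h2] <;> ring
    by_cases hcol : s.col u z = c
    · rw [gen (1 / (1 + p / 2)) ((3 / 2) / (1 + p / 2))]
      · rw [← pm]
        have : (1 / (1 + p / 2) - 1) * mU ε s u z
            + (3 / 2 / (1 + p / 2) - 1 / (1 + p / 2)) * (p * mU ε s u z) = 0 := by
          field_simp; ring
        linarith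
      · intro T
        unfold wf
        by_cases h1 : u ∈ T <;> by_cases h2 : v ∈ T <;> simp [h1, h2, hc, hcol, hp]
    · rw [gen (1 + p) 0]
      · rw [← pm]
        have m0 : 0 ≤ mU ε s u z := a0.trans a1
        nlinarith [mul_nonneg (mul_nonneg p0 p0) m0]
      · intro T
        unfold wf
        by_cases h1 : u ∈ T <;> by_cases h2 : v ∈ T <;> simp [h1, h2, hc, hcol, hp]
  · apply le_of_eq
    unfold mass
    refine Finset.sum_congr rfl fun T _ => ?_
    simp [wf, hc]

lemma nu_sum (hε : 0 ≤ ε) {s : St} (hs : Good ε s) (u v : ℕ) (c : Bool)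
    (hc : threat ε s u v c ≤ threat ε s u v (!c)) (x : ℕ) :
    ∑ z ∈ s.nb x, s.nu x z * nf ε s u v c x z ≤ ∑ z ∈ s.nb x, s.nu x z := by
  by_cases hx : x = u
  · subst hx
    have h1 : ∀ z ∈ s.nb x, s.nu x z * nf ε s x v c x z
        ≤ s.nu x z + 1 / 2 * (if z ∈ s.nb v ∧ s.col x z = c then s.nu x z * pr ε s x v z else 0)
          - 1 / 2 * (if z ∈ s.nb v ∧ s.col x z = !c then s.nu x z * pr ε s x v z else 0) := by
      intro z hz
      have p0 := pr_nonneg hε hs x v z
      have p1 := pr_le hε hs x v z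
      have n0 := hs.nu0 x z
      unfold nf
      by_cases h2 : z ∈ s.nb v
      · have hcm : cm s x v z := ⟨hz, h2⟩
        by_cases h3 : s.col x z = c
        · have h4 : ¬ s.col x z = !c := by rw [h3]; cases c <;> simp
          simp only [hcm, h2, h3, true_and, and_self, if_true]
          rw [if_neg (by cases c <;> simp)]
          apply le_of_eq; ring
        · have h4 : s.col x z = !c := by
            revert h3; cases c <;> cases s.col x z <;> simp
          rw [if_pos ⟨rfl, hcm⟩, if_neg h3, if_neg (fun h => h3 h.2), if_pos ⟨h2, h4⟩]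
          have h5 : 1 / (1 + pr ε s x v z) ≤ 1 - pr ε s x v z / 2 := by
            rw [div_le_iff₀ (by linarith)]; nlinarith
          nlinarith [mul_le_mul_of_nonneg_left h5 n0]
      · have hcm : ¬ cm s x v z := fun h => h2 h.2
        simp [hcm, h2]
    refine (Finset.sum_le_sum h1).trans ?_
    rw [Finset.sum_sub_distrib, Finset.sum_add_distrib, ← Finset.mul_sum, ← Finset.mul_sum]
    unfold threat at hc
    linarith
  · apply le_of_eq
    refine Finset.sum_congr rfl fun z _ => ?_
    simp [nf, hx]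

lemma mem_step_nb (s : St) (u v : ℕ) (c : Bool) (huv : u ≠ v) (x y : ℕ) :
    y ∈ (step ε s u v c).nb x ↔ y ∈ s.nb x ∨ (x = u ∧ y = v) ∨ (x = v ∧ y = u) := by
  simp only [step]
  split_ifs with h1 h2
  · subst h1; simp [huv]; tauto
  · subst h2; simp [h1]; tauto
  · simp [h1, h2]

theorem good_step (hε : 0 ≤ ε) {s : St} (hs : Good ε s) (u v : ℕ) (c : Bool) (huv : u ≠ v)
    (hn : v ∉ s.nb u) (hc : threat ε s u v c ≤ threat ε s u v (!c)) :
    Good ε (step ε s u v c) := by
  have hn' : u ∉ s.nb v := fun h => hn (hs.symm _ _ h)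
  have cu : ¬ cm s u v u := fun h => hs.irr u h.1
  have cv : ¬ cm s u v v := fun h => hs.irr v h.2
  have hm := mem_step_nb (ε := ε) s u v c huv
  refine ⟨?_, ?_, ?_, ?_, ?_, ?_, ?_, ?_, ?_, ?_⟩
  · intro x y h
    rw [hm] at h ⊢
    rcases h with h | h | h
    · exact Or.inl (hs.symm _ _ h)
    · exact Or.inr (Or.inr ⟨h.2, h.1⟩)
    · exact Or.inr (Or.inl ⟨h.2, h.1⟩)
  · intro x h
    rw [hm] at h
    rcases h with h | h | h
    · exact hs.irr x h
    · exact huv (h.1.symm.trans h.2)
    · exact huv (h.2.symm.trans h.1)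
  · intro z T
    exact mul_nonneg (hs.w0 z T) (wf_nonneg hε hs u v c z T)
  · intro z T
    have hsub : s.nb z ⊆ (step ε s u v c).nb z := fun y hy => (hm z y).mpr (Or.inl hy)
    show s.w z T * wf ε s u v c z T
      = s.w z (T ∩ (step ε s u v c).nb z) * wf ε s u v c z (T ∩ (step ε s u v c).nb z)
    congr 1
    · rw [hs.wloc z (T ∩ (step ε s u v c).nb z), Finset.inter_assoc,
        Finset.inter_eq_right.mpr hsub, ← hs.wloc z T]
    · unfold wf
      by_cases h : cm s u v z
      · have h1 : u ∈ (step ε s u v c).nb z := hsub (hs.symm _ _ h.1)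
        have h2 : v ∈ (step ε s u v c).nb z := hsub (hs.symm _ _ h.2)
        simp [h1, h2]
      · simp [h]
  · intro z
    have base : ∀ y, y ∉ s.nb z → ¬ cm s u v z → (step ε s u v c).nb z = insert y (s.nb z) →
        mass ε (step ε s u v c) z ≤ (1 + ε) ^ ((step ε s u v c).nb z).card := by
      intro y hy hcz he
      have : mass ε (step ε s u v c) z = (1 + ε) * mass ε s z := by
        rw [← mass_insert hs z y hy]
        unfold mass
        rw [he]
        refine Finset.sum_congr rfl fun T _ => ?_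
        simp [step, wf, hcz]
      rw [this, he, Finset.card_insert_of_notMem hy, pow_succ, mul_comm]
      exact mul_le_mul_of_nonneg_right (hs.massle z) (by linarith)
    by_cases h1 : z = u
    · subst h1
      exact base v hn cu (by simp [step])
    · by_cases h2 : z = v
      · subst h2
        exact base u hn' cv (by simp [step, h1])
      · have he : (step ε s u v c).nb z = s.nb z := by simp [step, h1, h2]
        unfold mass
        rw [he]
        exact (mass_cm hε hs u v c z).trans (hs.massle z)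
  · intro x z
    exact mul_nonneg (hs.nu0 x z) (nf_nonneg hε hs u v c x z)
  · intro x z h
    have h1 : z ∉ s.nb x := fun h' => h ((hm x z).mpr (Or.inl h'))
    show s.nu x z * nf ε s u v c x z = 1
    rw [hs.nuloc x z h1, one_mul]
    unfold nf
    rw [if_neg]
    rintro ⟨rfl, h2⟩
    exact h1 h2.1
  · intro x
    have h0 := (nu_sum hε hs u v c hc x).trans (hs.nusum x)
    have base : ∀ y, y ∉ s.nb x → ¬ cm s u v y → (step ε s u v c).nb x = insert y (s.nb x) →
        ∑ z ∈ (step ε s u v c).nb x, (step ε s u v c).nu x z ≤ ((step ε s u v c).nb x).card := by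
      intro y hy hcy he
      rw [he, Finset.sum_insert hy, Finset.card_insert_of_notMem hy]
      have : (step ε s u v c).nu x y = 1 := by
        simp [step, nf, hcy, hs.nuloc x y hy]
      rw [this]
      push_cast
      have e : ∑ z ∈ s.nb x, (step ε s u v c).nu x z
          = ∑ z ∈ s.nb x, s.nu x z * nf ε s u v c x z := rfl
      linarith
    by_cases h1 : x = u
    · subst h1
      exact base v hn cv (by simp [step])
    · by_cases h2 : x = v
      · subst h2
        exact base u hn' cu (by simp [step, h1])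
      · have he : (step ε s u v c).nb x = s.nb x := by simp [step, h1, h2]
        rw [he]
        exact h0
  · intro x y z h1 h2 h3
    have up : ∀ a p, p ∈ s.rc a → p ∈ (step ε s u v c).rc a := by
      intro a p h
      simp only [step]
      split_ifs
      · exact Finset.mem_insert_of_mem (Finset.mem_insert_of_mem h)
      · exact h
    have nw : ∀ a, a ∈ s.nb u → a ∈ s.nb v →
        (u, v) ∈ (step ε s u v c).rc a ∧ (v, u) ∈ (step ε s u v c).rc a := by
      intro a a1 a2
      have : cm s u v a := ⟨a1, a2⟩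
      simp [step, this]
    rw [hm] at h1 h2 h3
    have S := hs.symm
    have I := hs.irr
    rcases h1 with h1 | ⟨rfl, rfl⟩ | ⟨rfl, rfl⟩
    · rcases h2 with h2 | ⟨rfl, rfl⟩ | ⟨rfl, rfl⟩
      · rcases h3 with h3 | ⟨rfl, rfl⟩ | ⟨rfl, rfl⟩
        · rcases hs.tri x y z h1 h2 h3 with h | h | h
          · exact Or.inl (up _ _ h)
          · exact Or.inr (Or.inl (up _ _ h))
          · exact Or.inr (Or.inr (up _ _ h))
        · exact Or.inr (Or.inl (nw y (S _ _ h2) h1).1)
        · exact Or.inr (Or.inl (nw y h1 (S _ _ h2)).2)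
      · rcases h3 with h3 | ⟨h, _⟩ | ⟨_, rfl⟩
        · exact Or.inl (nw x (S _ _ h1) h3).1
        · exact absurd h.symm huv
        · exact absurd h1 (I _)
      · rcases h3 with h3 | ⟨_, rfl⟩ | ⟨h, _⟩
        · exact Or.inl (nw x h3 (S _ _ h1)).2
        · exact absurd h1 (I _)
        · exact absurd h huv
    · rcases h2 with h2 | ⟨h, _⟩ | ⟨_, rfl⟩
      · rcases h3 with h3 | ⟨_, h⟩ | ⟨rfl, _⟩
        · exact Or.inr (Or.inr (nw z (S _ _ h3) h2).1)
        · exact absurd h huv
        · exact absurd h2 (I _)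
      · exact absurd h.symm huv
      · rcases h3 with h3 | ⟨_, h⟩ | ⟨h, _⟩
        · exact absurd h3 (I _)
        · exact absurd h huv
        · exact absurd h huv
    · rcases h2 with h2 | ⟨_, rfl⟩ | ⟨h, _⟩
      · rcases h3 with h3 | ⟨rfl, _⟩ | ⟨_, h⟩
        · exact Or.inr (Or.inr (nw z h2 (S _ _ h3)).2)
        · exact absurd h2 (I _)
        · exact absurd h.symm huv
      · rcases h3 with h3 | ⟨h, _⟩ | ⟨_, h⟩
        · exact absurd h3 (I _)
        · exact absurd h.symm huv
        · exact absurd h.symm huv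
      · exact absurd h huv
  · intro z T c' hz hM
    have hM0 : Mono s (insert z T) c' := by
      intro x hx y hy hxy
      have h1 := hM x hx y hy ((hm x y).mpr (Or.inl hxy))
      simp only [step] at h1
      rwa [if_neg] at h1
      rintro (⟨rfl, rfl⟩ | ⟨rfl, rfl⟩)
      · exact hn hxy
      · exact hn' hxy
    have ih := hs.gain z T c' hz hM0
    have hW : (step ε s u v c).w z T * ∏ y ∈ T, (step ε s u v c).nu y z
        = (s.w z T * ∏ y ∈ T, s.nu y z) * (wf ε s u v c z T * ∏ y ∈ T, nf ε s u v c y z) := by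
      simp only [step]
      rw [Finset.prod_mul_distrib]; ring
    rw [hW]
    have p0 := pr_nonneg hε hs u v z
    by_cases hcz : cm s u v z
    · have hrc : (step ε s u v c).rc z = insert (u, v) (insert (v, u) (s.rc z)) := by
        simp [step, hcz]
      rw [hrc]
      by_cases hu : u ∈ T
      · have hprod : ∏ y ∈ T, nf ε s u v c y z
            = if s.col u z = c then 1 + pr ε s u v z / 2 else 1 / (1 + pr ε s u v z) := by
          rw [Finset.prod_eq_single_of_mem u hu]
          · simp [nf, hcz]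
          · intro y _ hy; simp [nf, hy]
        rw [hprod]
        by_cases hv : v ∈ T
        · have c1 : s.col u z = c' :=
            hM0 u (Finset.mem_insert_of_mem hu) z (Finset.mem_insert_self _ _) hcz.1
          have c2 : c = c' := by
            have := hM u (Finset.mem_insert_of_mem hu) v (Finset.mem_insert_of_mem hv)
              ((hm u v).mpr (Or.inr (Or.inl ⟨rfl, rfl⟩)))
            simpa [step] using this
          have c3 : s.col u z = c := c1.trans c2.symm
          have hF : wf ε s u v c z T * (if s.col u z = c then 1 + pr ε s u v z / 2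
              else 1 / (1 + pr ε s u v z)) = 3 / 2 := by
            simp only [wf, hcz, hu, hv, c3, and_self, if_true]
            field_simp
          rw [hF]
          have hcard : ((insert (u, v) (insert (v, u) (s.rc z))).filter
              fun p => p.1 ∈ T ∧ p.2 ∈ T).card
              ≤ ((s.rc z).filter fun p => p.1 ∈ T ∧ p.2 ∈ T).card + 2 := by
            rw [Finset.filter_insert, Finset.filter_insert]
            simp only [hu, hv, and_self, if_true]
            refine (Finset.card_insert_le _ _).trans ?_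
            have := Finset.card_insert_le (v, u) ((s.rc z).filter fun p => p.1 ∈ T ∧ p.2 ∈ T)
            omega
          refine (pow_le_pow_right₀ (by norm_num) hcard).trans ?_
          rw [pow_add]
          apply mul_le_mul ih (by norm_num) (by norm_num)
          exact le_trans (by positivity) ih
        · have hF : wf ε s u v c z T * (if s.col u z = c then 1 + pr ε s u v z / 2
              else 1 / (1 + pr ε s u v z)) = 1 := by
            simp only [wf, hcz, hu, hv, and_self, if_true, if_false]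
            split_ifs <;> field_simp
          rw [hF, mul_one, Finset.filter_insert, Finset.filter_insert]
          simpa [hv] using ih
      · have hF : wf ε s u v c z T * ∏ y ∈ T, nf ε s u v c y z = 1 := by
          rw [Finset.prod_eq_one]
          · simp [wf, hu]
          · intro y hy
            have : y ≠ u := fun h => hu (h ▸ hy)
            simp [nf, this]
        rw [hF, mul_one, Finset.filter_insert, Finset.filter_insert]
        simpa [hu] using ih
    · have hF : wf ε s u v c z T * ∏ y ∈ T, nf ε s u v c y z = 1 := by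
        rw [Finset.prod_eq_one]
        · simp [wf, hcz]
        · intro y _; simp [nf, hcz]
      have hrc : (step ε s u v c).rc z = s.rc z := by simp [step, hcz]
      rw [hF, mul_one, hrc]
      exact ih

end Pool.Agent.Lib.MP_ee6896_co
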