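import Mathlib
import Pool.Agent.Lib.MP_ee6896_co.State

set_option autoImplicit false

namespace Pool.Agent.Lib.MP_ee6896_co

open Finset

lemma exists_root {ε : ℝ} {s : St} (hs : Good ε s) (S : Finset ℕ) (M : ℕ) (hS : S.card = 3 * M + 2)
    (hfull : ∀ x ∈ S, ∀ y ∈ S, x ≠ y → y ∈ s.nb x) :
    ∃ z ∈ S, (3 * M + 1) * M
      ≤ ((s.rc z).filter fun p => p.1 ∈ S.erase z ∧ p.2 ∈ S.erase z).card := by
  set g : ℕ → ℕ := fun z => ((s.rc z).filter fun p => p.1 ∈ S.erase z ∧ p.2 ∈ S.erase z).card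
    with hg
  let I : ℕ → ℕ → ℕ → ℕ := fun z x y => if (x, y) ∈ s.rc z ∧ x ≠ z ∧ y ≠ z then 1 else 0
  have hI : ∀ z ∈ S, ∑ x ∈ S, ∑ y ∈ S, I z x y ≤ g z := by
    intro z _
    rw [← Finset.sum_product', hg]
    simp only [I]
    rw [← Finset.card_filter]
    apply Finset.card_le_card
    intro p hp
    simp only [Finset.mem_filter, Finset.mem_product, Finset.mem_erase] at hp ⊢
    exact ⟨hp.2.1, ⟨hp.2.2.1, hp.1.1⟩, ⟨hp.2.2.2, hp.1.2⟩⟩
  let D : ℕ → ℕ → ℕ → ℕ := fun x y z => if x ≠ y ∧ z ≠ x ∧ z ≠ y then 1 else 0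
  have hD : ∀ x ∈ S, ∀ y ∈ S, ∀ z ∈ S, D x y z ≤ I x y z + I y z x + I z x y := by
    intro x hx y hy z hz
    simp only [D, I]
    by_cases h : x ≠ y ∧ z ≠ x ∧ z ≠ y
    · obtain ⟨h1, h2, h3⟩ := h
      rcases hs.tri x y z (hfull x hx y hy h1) (hfull y hy z hz h3.symm) (hfull z hz x hx h2)
        with h | h | h
      · simp [h, h1, h2, h3, h1.symm]; omega
      · simp [h, h1, h2, h3]; omega
      · simp [h, h1, h2, h3, h2.symm, h3.symm]
    · simp [h]
  have hDsum : ∑ x ∈ S, ∑ y ∈ S, ∑ z ∈ S, D x y z = (3 * M + 2) * ((3 * M + 1) * (3 * M)) := by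
    have : ∀ x ∈ S, ∑ y ∈ S, ∑ z ∈ S, D x y z = (3 * M + 1) * (3 * M) := by
      intro x hx
      have h1 : ∀ y ∈ S, ∑ z ∈ S, D x y z = if y ∈ S.erase x then 3 * M else 0 := by
        intro y hy
        by_cases hxy : x = y
        · simp [D, hxy]
        · have hy' : y ∈ S.erase x := Finset.mem_erase.mpr ⟨Ne.symm hxy, hy⟩
          rw [if_pos hy']
          simp only [D]
          rw [← Finset.card_filter]
          have : (S.filter fun z => x ≠ y ∧ z ≠ x ∧ z ≠ y) = (S.erase x).erase y := by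
            ext z; simp [hxy]; tauto
          rw [this, Finset.card_erase_of_mem hy', Finset.card_erase_of_mem hx, hS]
          omega
      rw [Finset.sum_congr rfl h1, Finset.sum_ite_mem, Finset.inter_eq_right.mpr
        (Finset.erase_subset x S), Finset.sum_const, Finset.card_erase_of_mem hx, hS]
      simp
    rw [Finset.sum_congr rfl this, Finset.sum_const, hS]
    simp
  have h1 : ∑ x ∈ S, ∑ y ∈ S, ∑ z ∈ S, I x y z ≤ ∑ z ∈ S, g z := Finset.sum_le_sum hI
  have h2 : ∑ x ∈ S, ∑ y ∈ S, ∑ z ∈ S, I y z x ≤ ∑ z ∈ S, g z := by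
    rw [Finset.sum_comm]
    refine le_trans (le_of_eq ?_) h1
    exact Finset.sum_congr rfl fun y _ => Finset.sum_comm
  have h3 : ∑ x ∈ S, ∑ y ∈ S, ∑ z ∈ S, I z x y ≤ ∑ z ∈ S, g z := by
    refine le_trans (le_of_eq ?_) h1
    rw [Finset.sum_congr rfl fun x _ => Finset.sum_comm, Finset.sum_comm]
  have h4 : ∑ x ∈ S, ∑ y ∈ S, ∑ z ∈ S, D x y z ≤ ∑ x ∈ S, ∑ y ∈ S, ∑ z ∈ S, I x y z
      + ∑ x ∈ S, ∑ y ∈ S, ∑ z ∈ S, I y z x + ∑ x ∈ S, ∑ y ∈ S, ∑ z ∈ S, I z x y := by
    simp only [← Finset.sum_add_distrib]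
    exact Finset.sum_le_sum fun x hx => Finset.sum_le_sum fun y hy =>
      Finset.sum_le_sum fun z hz => hD x hx y hy z hz
  apply Finset.exists_le_of_sum_le
  · rw [← Finset.card_pos, hS]; omega
  · rw [Finset.sum_const, hS, smul_eq_mul]
    have : 3 * ((3 * M + 2) * ((3 * M + 1) * M)) ≤ 3 * ∑ z ∈ S, g z := by
      calc 3 * ((3 * M + 2) * ((3 * M + 1) * M)) = (3 * M + 2) * ((3 * M + 1) * (3 * M)) := by ring
        _ ≤ _ := by omega
    exact Nat.le_of_mul_le_mul_left this (by norm_num)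

theorem final_bound {K : ℕ} (hK : 1 ≤ K) {s : St} (hs : Good (1 / (K : ℝ)) s)
    (hdeg : ∀ x, (s.nb x).card ≤ K) (S : Finset ℕ) (M : ℕ) (hS : S.card = 3 * M + 2) (c : Bool)
    (hfull : ∀ x ∈ S, ∀ y ∈ S, x ≠ y → y ∈ s.nb x) (hmono : Mono s S c) :
    (6 / 5 : ℝ) ^ M ≤ 3 * (K : ℝ) ^ 2 := by
  obtain ⟨z, hz, hg⟩ := exists_root hs S M hS hfull
  have K1 : (1 : ℝ) ≤ K := by exact_mod_cast hK
  have K0 : (0 : ℝ) < K := by linarith
  set T := S.erase z with hT
  have hTc : T.card = 3 * M + 1 := by rw [hT, Finset.card_erase_of_mem hz, hS]; omega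
  have h1 := hs.gain z T c (Finset.notMem_erase z S) (by rwa [hT, Finset.insert_erase hz])
  have hsub : T ⊆ s.nb z := fun y hy =>
    hfull z hz y (Finset.mem_of_mem_erase hy) (Finset.ne_of_mem_erase hy).symm
  have h2 : (1 / (K : ℝ)) ^ T.card * s.w z T ≤ 3 := by
    have a1 : (1 / (K : ℝ)) ^ T.card * s.w z T ≤ mass (1 / (K : ℝ)) s z := by
      unfold mass
      exact Finset.single_le_sum (f := fun T => (1 / (K : ℝ)) ^ T.card * s.w z T)
        (fun T _ => mul_nonneg (by positivity) (hs.w0 z T)) (Finset.mem_powerset.mpr hsub)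
    have a2 : (1 + 1 / (K : ℝ)) ^ (s.nb z).card ≤ (1 + 1 / (K : ℝ)) ^ K :=
      pow_le_pow_right₀ (by have : (0 : ℝ) ≤ 1 / K := by positivity
                            linarith) (hdeg z)
    have a3 : (1 + 1 / (K : ℝ)) ^ K ≤ Real.exp (1 / (K : ℝ)) ^ K :=
      pow_le_pow_left₀ (by positivity) (by linarith [Real.add_one_le_exp (1 / (K : ℝ))]) K
    have a4 : Real.exp (1 / (K : ℝ)) ^ K = Real.exp 1 := by
      rw [← Real.exp_nat_mul]; congr 1; field_simp
    have a5 := Real.exp_one_lt_d9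
    have a6 := hs.massle z
    linarith
  have h3 : s.w z T ≤ 3 * (K : ℝ) ^ T.card := by
    rw [one_div, inv_pow, ← div_eq_inv_mul, div_le_iff₀ (by positivity)] at h2
    exact h2
  have h4 : ∏ y ∈ T, s.nu y z ≤ (K : ℝ) ^ T.card := by
    rw [← Finset.prod_const]
    refine Finset.prod_le_prod (fun y _ => hs.nu0 y z) fun y hy => ?_
    have b1 : z ∈ s.nb y := hs.symm _ _ (hsub hy)
    have b2 : s.nu y z ≤ ∑ x ∈ s.nb y, s.nu y x :=
      Finset.single_le_sum (f := fun x => s.nu y x) (fun x _ => hs.nu0 y x) b1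
    have b3 : ((s.nb y).card : ℝ) ≤ K := by exact_mod_cast hdeg y
    linarith [hs.nusum y]
  have h5 : ((6 / 5 : ℝ) ^ M) ^ (3 * M + 1) ≤ (3 * (K : ℝ) ^ 2) ^ (3 * M + 1) := by
    calc ((6 / 5 : ℝ) ^ M) ^ (3 * M + 1) = (6 / 5 : ℝ) ^ ((3 * M + 1) * M) := by
          rw [← pow_mul, mul_comm]
      _ ≤ _ := pow_le_pow_right₀ (by norm_num) hg
      _ ≤ s.w z T * ∏ y ∈ T, s.nu y z := h1
      _ ≤ (3 * (K : ℝ) ^ T.card) * (K : ℝ) ^ T.card :=
          mul_le_mul h3 h4 (Finset.prod_nonneg fun y _ => hs.nu0 y z) (by positivity)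
      _ = 3 * ((K : ℝ) ^ 2) ^ (3 * M + 1) := by rw [hTc]; ring
      _ ≤ 3 ^ (3 * M + 1) * ((K : ℝ) ^ 2) ^ (3 * M + 1) := by
          apply mul_le_mul_of_nonneg_right _ (by positivity)
          exact le_self_pow₀ (by norm_num) (by omega)
      _ = (3 * (K : ℝ) ^ 2) ^ (3 * M + 1) := by rw [mul_pow]
  exact (pow_le_pow_iff_left₀ (by positivity) (by positivity) (by omega)).mp h5

abbrev Hist := List (Sym2 ℕ × Bool)

noncomputable def run (ε : ℝ) (h : Hist) : St :=
  h.foldl (fun s x => step ε s (Quot.out x.1).1 (Quot.out x.1).2 x.2) init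

noncomputable def painter (ε : ℝ) (h : Hist) (e : Sym2 ℕ) : Bool :=
  pick ε (run ε h) (Quot.out e).1 (Quot.out e).2

structure Link (s : St) (h : Hist) : Prop where
  nb : ∀ x y, y ∈ s.nb x ↔ s(x, y) ∈ h.map Prod.fst
  col : ∀ x y c, (s(x, y), c) ∈ h → s.col x y = c
  deg : ∀ x, (s.nb x).card ≤ (h.filter (fun a => x ∈ a.1)).length

lemma play_inv {ε : ℝ} (hε : 0 ≤ ε) (B : Hist → Sym2 ℕ) (h : ℕ → Hist) (h0 : h 0 = [])
    (hs : ∀ n, h (n + 1) = h n ++ [(B (h n), painter ε (h n) (B (h n)))]) (n : ℕ) :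
    ((h n).map Prod.fst).Nodup → (∀ x ∈ h n, ¬ x.1.IsDiag) →
      Good ε (run ε (h n)) ∧ Link (run ε (h n)) (h n) := by
  induction n with
  | zero =>
    intro _ _
    rw [h0]
    exact ⟨good_init ε, ⟨by simp [run, init], by simp, by simp [run, init]⟩⟩
  | succ n ih =>
    intro hnd hdg
    rw [hs n] at hnd hdg ⊢
    set e := B (h n) with he
    set c := painter ε (h n) e with hc
    set u := (Quot.out e).1 with hu
    set v := (Quot.out e).2 with hv
    have huv : s(u, v) = e := Quot.out_eq e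
    rw [List.map_append, List.nodup_append] at hnd
    obtain ⟨G, L⟩ := ih hnd.1 (fun x hx => hdg x (List.mem_append_left _ hx))
    have hnew : e ∉ (h n).map Prod.fst := fun hh => hnd.2.2 e hh e (by simp) rfl
    have hne : u ≠ v := by
      have := hdg (e, c) (by simp)
      rw [← huv] at this
      simpa using this
    have hn : v ∉ (run ε (h n)).nb u := by rw [L.nb, huv]; exact hnew
    have hrun : run ε (h n ++ [(e, c)]) = step ε (run ε (h n)) u v c := by
      unfold run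
      rw [List.foldl_append]
      rfl
    rw [hrun]
    have hiff : ∀ x y : ℕ, s(x, y) = e ↔ (x = u ∧ y = v) ∨ (x = v ∧ y = u) := by
      intro x y
      rw [← huv, Sym2.eq_iff]
    refine ⟨good_step hε G u v c hne hn (pick_le ε _ u v), ?_, ?_, ?_⟩
    · intro x y
      rw [mem_step_nb _ u v c hne, L.nb, List.map_append, List.mem_append, ← hiff]
      simp
    · intro x y c' hm
      rw [List.mem_append] at hm
      simp only [step]
      rcases hm with hm | hm
      · rw [if_neg]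
        · exact L.col x y c' hm
        · rw [← hiff]
          intro hh
          exact hnew (List.mem_map.mpr ⟨_, hm, hh⟩)
      · simp only [List.mem_singleton, Prod.mk.injEq] at hm
        rw [if_pos ((hiff x y).mp hm.1), hm.2]
    · intro x
      have := L.deg x
      rw [List.filter_append, List.length_append]
      simp only [step]
      split_ifs with h1 h2
      · have : x ∈ e := by rw [← huv, h1]; simp
        have h3 := Finset.card_insert_le v ((run ε (h n)).nb x)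
        simp [this]; omega
      · have : x ∈ e := by rw [← huv, h2]; simp
        have h3 := Finset.card_insert_le u ((run ε (h n)).nb x)
        simp [this]; omega
      · omega

/-- Against every Builder strategy, the Painter strategy `painter` keeps a monochromatic clique on
`3M+2` vertices away unless the degree bound `k` is exponentially large. -/
theorem painter_wins (M k : ℕ) (B : Hist → Sym2 ℕ) (h : ℕ → Hist) (h0 : h 0 = [])
    (hs : ∀ n, h (n + 1)
      = h n ++ [(B (h n), painter (1 / ((k + 1 : ℕ) : ℝ)) (h n) (B (h n)))]) (n : ℕ)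
    (h1 : ((h n).map Prod.fst).Nodup) (h2 : ∀ x ∈ h n, ¬ x.1.IsDiag)
    (h3 : ∀ v : ℕ, ((h n).filter (fun x => v ∈ x.1)).length ≤ k)
    (φ : Fin (3 * M + 2) → ℕ) (hφ : Function.Injective φ) (c : Bool)
    (h4 : ∀ u w, u ≠ w → (s(φ u, φ w), c) ∈ h n) :
    (6 / 5 : ℝ) ^ M ≤ 3 * ((k : ℝ) + 1) ^ 2 := by
  obtain ⟨G, L⟩ := play_inv (by positivity) B h h0 hs n h1 h2
  have key : ∀ x ∈ Finset.univ.image φ, ∀ y ∈ Finset.univ.image φ, x ≠ y →
      (s(x, y), c) ∈ h n := by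
    intro x hx y hy hxy
    obtain ⟨a, _, rfl⟩ := Finset.mem_image.mp hx
    obtain ⟨b, _, rfl⟩ := Finset.mem_image.mp hy
    exact h4 a b fun hh => hxy (by rw [hh])
  have := final_bound (K := k + 1) (by omega) G (fun x => ((L.deg x).trans (h3 x)).trans (by omega))
    (Finset.univ.image φ) M (by rw [Finset.card_image_of_injective _ hφ]; simp) c
    (fun x hx y hy hxy => (L.nb x y).mpr (List.mem_map.mpr ⟨_, key x hx y hy hxy, rfl⟩))
    (fun x hx y hy hxy => L.col x y c (key x hx y hy fun hh => G.irr x (by rwa [← hh] at hxy)))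
  simpa using this

noncomputable def play (B : Hist → Sym2 ℕ) (P : Hist → Sym2 ℕ → Bool) : ℕ → Hist
  | 0 => []
  | n + 1 => play B P n ++ [(B (play B P n), P (play B P n) (B (play B P n)))]

lemma exp_beats (C d : ℕ) :
    ∃ M : ℕ, 3 * (((C * (3 * M + 2) ^ d : ℕ) : ℝ) + 1) ^ 2 < (6 / 5 : ℝ) ^ M := by
  have ht := tendsto_pow_const_div_const_pow_of_one_lt (2 * d) (r := 6 / 5) (by norm_num)
  set A : ℝ := 3 * ((C : ℝ) + 1) ^ 2 * 5 ^ (2 * d) with hA
  have A0 : 0 < A := by positivity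
  have hev := (ht.eventually (gt_mem_nhds (show (0 : ℝ) < 1 / A by positivity))).and
    (Filter.eventually_ge_atTop 1)
  obtain ⟨M, hM, hM1⟩ := hev.exists
  refine ⟨M, ?_⟩
  have M1 : (1 : ℝ) ≤ M := by exact_mod_cast hM1
  rw [div_lt_div_iff₀ (by positivity) A0, one_mul] at hM
  refine lt_of_le_of_lt ?_ hM
  have a1 : (3 * (M : ℝ) + 2) ^ d ≤ (5 * (M : ℝ)) ^ d :=
    pow_le_pow_left₀ (by positivity) (by linarith) d
  have a2 : (1 : ℝ) ≤ (5 * (M : ℝ)) ^ d := one_le_pow₀ (by linarith)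
  have a3 : ((C * (3 * M + 2) ^ d : ℕ) : ℝ) + 1 ≤ ((C : ℝ) + 1) * (5 * (M : ℝ)) ^ d := by
    push_cast
    have : (C : ℝ) * (3 * (M : ℝ) + 2) ^ d ≤ C * (5 * (M : ℝ)) ^ d :=
      mul_le_mul_of_nonneg_left a1 (by positivity)
    linarith
  calc 3 * (((C * (3 * M + 2) ^ d : ℕ) : ℝ) + 1) ^ 2
      ≤ 3 * (((C : ℝ) + 1) * (5 * (M : ℝ)) ^ d) ^ 2 := by gcongr
    _ = (M : ℝ) ^ (2 * d) * A := by rw [hA]; ring

end Pool.Agent.Lib.MP_ee6896_co
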